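import Pool.Agent.NH16.AS.Stm

/-!
# Almost all squares: module J7 (`CountI`)
-/

set_option autoImplicit false

namespace Pool.Agent.NH16.AS

open Finset Pool.Agent.H785R2.ABC

/-- dyadic range: `2 ^ log2 z ≤ z < 2 ^ (log2 z + 1)` and `log2 z < log2 (N ^ 3) + 1` -/
theorem countI_log (N z : ℕ) (hz : 1 ≤ z) (hzN : z ≤ N ^ 3) :
    Nat.log 2 z < Nat.log 2 (N ^ 3) + 1 ∧ 2 ^ Nat.log 2 z ≤ z ∧ z ≤ 2 ^ (Nat.log 2 z + 1) := by
  refine ⟨Nat.lt_succ_of_le (Nat.log_mono_right hzN), Nat.pow_log_le_self 2 (by omega), ?_⟩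
  exact (Nat.lt_pow_succ_log_self (by norm_num) z).le

/-- the number of dyadic ranges -/
theorem countI_num (ε : ℝ) (hε : 0 < ε) : ∃ C : ℝ, 0 < C ∧ ∀ N : ℕ, 1 ≤ N →
    ((Nat.log 2 (N ^ 3) + 1 : ℕ) : ℝ) ≤ C * (N : ℝ) ^ ε := by
  have hl2 : 0 < Real.log 2 := Real.log_pos (by norm_num)
  refine ⟨3 / (ε * Real.log 2) + 1, by positivity, fun N hN => ?_⟩
  have hN1 : (1 : ℝ) ≤ N := by exact_mod_cast hN
  have h1 : ((Nat.log 2 (N ^ 3) : ℕ) : ℝ) * Real.log 2 ≤ 3 * Real.log N := by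
    have h2 : (2 : ℝ) ^ (Nat.log 2 (N ^ 3)) ≤ (N : ℝ) ^ 3 := by
      exact_mod_cast Nat.pow_log_le_self 2 (by positivity)
    have h3 := Real.log_le_log (by positivity) h2
    rw [Real.log_pow, Real.log_pow] at h3
    exact_mod_cast h3
  have h4 : Real.log N ≤ (N : ℝ) ^ ε / ε := Real.log_le_rpow_div (by positivity) hε
  have h5 : (1 : ℝ) ≤ (N : ℝ) ^ ε := Real.one_le_rpow hN1 hε.le
  have h6 : ((Nat.log 2 (N ^ 3) : ℕ) : ℝ) ≤ 3 / (ε * Real.log 2) * (N : ℝ) ^ ε := by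
    rw [div_mul_eq_mul_div, le_div_iff₀ (by positivity)]
    have h7 : ε * Real.log N ≤ (N : ℝ) ^ ε := by
      rw [le_div_iff₀ hε] at h4
      linarith [mul_comm ε (Real.log N)]
    nlinarith [mul_le_mul_of_nonneg_left h1 hε.le]
  push_cast
  linarith

theorem countI_dyadic (W V : ℝ) (j : ℕ) (hV : 1 ≤ V) (hW : 0 ≤ W) (h : V ≤ 2 ^ (j + 1)) :
    W / 2 ^ j * Real.sqrt (2 ^ (j + 1)) ≤ 2 * (W / Real.sqrt V) := by
  have h2 : 0 < Real.sqrt V := Real.sqrt_pos.mpr (by linarith)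
  have h3 : Real.sqrt V ≤ Real.sqrt (2 ^ (j + 1)) := Real.sqrt_le_sqrt h
  have h4 : Real.sqrt ((2 : ℝ) ^ (j + 1)) * Real.sqrt (2 ^ (j + 1)) = 2 ^ (j + 1) :=
    Real.mul_self_sqrt (by positivity)
  have h5 : Real.sqrt ((2 : ℝ) ^ (j + 1)) * Real.sqrt V ≤ 2 * 2 ^ j := by
    have h6 := mul_le_mul_of_nonneg_left h3 (Real.sqrt_nonneg ((2 : ℝ) ^ (j + 1)))
    have h7 : (2 : ℝ) ^ (j + 1) = 2 * 2 ^ j := by ring
    linarith
  rw [div_mul_eq_mul_div, ← mul_div_assoc, div_le_div_iff₀ (by positivity) h2]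
  nlinarith [mul_le_mul_of_nonneg_left h5 hW]

open Classical in
/-- J7 -/
theorem countI (h4 : SqCount) (h6 : Pairs) : CountI := by
  intro I ε hε
  set η : ℝ := ε / 5 with hη
  have hη0 : 0 < η := by positivity
  obtain ⟨D1, hD1, H6⟩ := h6 η hη0
  obtain ⟨D2, hD2, H4⟩ := h4 I 5 η (by norm_num) hη0
  obtain ⟨C, hC, HC⟩ := countI_num η hη0
  refine ⟨C * (D1 * D2 * 2), by positivity, ?_⟩
  intro N hN k hk hkN s t hs ht i hi hiI V W hV hW
  have hN0 : (0 : ℝ) < N := by exact_mod_cast hN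
  have hV0 : 0 < Real.sqrt V := Real.sqrt_pos.mpr (by linarith)
  -- the case `N = 1`
  rcases Nat.lt_or_ge N 2 with hN2 | hN2
  · have hN1 : N = 1 := by omega
    subst hN1
    rw [Finset.filter_eq_empty_iff.mpr]
    · simp only [Finset.card_empty, Nat.cast_zero]
      positivity
    · rintro n - ⟨x, A, z, -, -, -, -, hz, hz1, -⟩
      have : (z : ℝ) ≤ 1 := by exact_mod_cast (by simpa using hz1 : z ≤ 1)
      linarith
  set L : ℕ := Nat.log 2 (N ^ 3) + 1 with hL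
  set P : ℕ → Finset (ℕ × ℕ) := fun j =>
    ((Icc 1 (N ^ 3)) ×ˢ (Icc 1 (N ^ 3))).filter (fun t : ℕ × ℕ => (rad t.1 : ℝ) * (rad t.2 : ℝ) ≤ W / 2 ^ j)
    with hP
  set Z : ℕ → ℕ × ℕ → Finset ℕ := fun j p =>
    (Icc 1 (2 ^ (j + 1))).filter
      (fun y : ℕ => IsSquare (((k : ℤ) * s * (p.2 : ℤ)) * (y : ℤ) ^ i + (k : ℤ) * t * (p.1 : ℤ))) with hZ
  set g : ℕ × ℕ → ℕ → ℕ := fun p z =>
    Nat.sqrt (((k : ℤ) * s * (p.2 : ℤ)) * (z : ℤ) ^ i + (k : ℤ) * t * (p.1 : ℤ)).toNat / k with hg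
  set J : Finset ℕ := (range L).filter (fun j => V ≤ 2 ^ (j + 1)) with hJ
  -- covering
  have hcov : ((Icc 1 N).filter (fun n : ℕ => ∃ x A z : ℕ, 1 ≤ x ∧ x ≤ N ^ 3 ∧ 1 ≤ A ∧ A ≤ N ^ 3 ∧ V < z ∧
      z ≤ N ^ 3 ∧ (rad x : ℝ) * rad A * z ≤ W ∧ (k : ℤ) * (n : ℤ) ^ 2 = s * (A * (z : ℤ) ^ i) + t * x)) ⊆
      J.biUnion (fun j => (P j).biUnion (fun p => (Z j p).image (g p))) := by
    intro n hn
    rw [Finset.mem_filter, Finset.mem_Icc] at hn
    obtain ⟨⟨hn1, hnN⟩, x, A, z, hx1, hxN, hA1, hAN, hzV, hzN, hrad, heq⟩ := hn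
    have hz1 : 1 ≤ z := by
      have : (0 : ℝ) < z := by linarith
      exact_mod_cast this
    obtain ⟨ha, hb, hc⟩ := countI_log N z hz1 hzN
    have hb' : (2 : ℝ) ^ (Nat.log 2 z) ≤ z := by exact_mod_cast hb
    have hc' : (z : ℝ) ≤ 2 ^ (Nat.log 2 z + 1) := by exact_mod_cast hc
    have hsq : ((k : ℤ) * s * (A : ℤ)) * (z : ℤ) ^ i + (k : ℤ) * t * (x : ℤ) = ((k : ℤ) * n) * ((k : ℤ) * n) := by
      have : ((k : ℤ) * n) * ((k : ℤ) * n) = (k : ℤ) * ((k : ℤ) * (n : ℤ) ^ 2) := by ring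
      rw [this, heq]
      ring
    simp only [Finset.mem_biUnion, Finset.mem_image]
    refine ⟨Nat.log 2 z, ?_, (x, A), ?_, z, ?_, ?_⟩
    · rw [hJ, Finset.mem_filter, Finset.mem_range]
      exact ⟨ha, by linarith⟩
    · simp only [hP, Finset.mem_filter, Finset.mem_product, Finset.mem_Icc]
      refine ⟨⟨⟨hx1, hxN⟩, hA1, hAN⟩, ?_⟩
      rw [le_div_iff₀ (by positivity)]
      refine le_trans ?_ hrad
      exact mul_le_mul_of_nonneg_left hb' (by positivity)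
    · simp only [hZ, Finset.mem_filter, Finset.mem_Icc]
      exact ⟨⟨hz1, hc⟩, ⟨(k : ℤ) * n, hsq⟩⟩
    · simp only [hg]
      rw [hsq]
      have : (((k : ℤ) * n) * ((k : ℤ) * n)).toNat = (k * n) * (k * n) := by
        have : ((k : ℤ) * n) * ((k : ℤ) * n) = (((k * n) * (k * n) : ℕ) : ℤ) := by push_cast; ring
        rw [this, Int.toNat_natCast]
      rw [this, Nat.sqrt_eq, Nat.mul_div_cancel_left _ (by omega)]
  have hNη : 0 < (N : ℝ) ^ η := Real.rpow_pos_of_pos hN0 _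
  -- the bound for one `j`
  have hone : ∀ j ∈ J, ((((P j).biUnion (fun p => (Z j p).image (g p))).card : ℕ) : ℝ) ≤
      (D1 * D2 * 2) * (N : ℝ) ^ (4 * η) * (W / Real.sqrt V) := by
    intro j hj
    rw [hJ, Finset.mem_filter, Finset.mem_range] at hj
    obtain ⟨hjL, hjV⟩ := hj
    have hjN : 2 ^ j ≤ N ^ 3 := by
      have h1 : j ≤ Nat.log 2 (N ^ 3) := by omega
      exact le_trans (Nat.pow_le_pow_right (by norm_num) h1) (Nat.pow_log_le_self 2 (by positivity))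
    have hY : 2 ^ (j + 1) ≤ N ^ 4 := by
      calc 2 ^ (j + 1) = 2 * 2 ^ j := by ring
        _ ≤ N * N ^ 3 := Nat.mul_le_mul hN2 hjN
        _ = N ^ 4 := by ring
    have hN5 : ∀ m : ℕ, m ≤ N ^ 4 → (m : ℝ) ≤ (N : ℝ) ^ (5 : ℝ) := by
      intro m hm
      have h1 : (m : ℝ) ≤ (N : ℝ) ^ 4 := by exact_mod_cast hm
      have h2 : (N : ℝ) ^ 4 ≤ (N : ℝ) ^ 5 := pow_le_pow_right₀ (by exact_mod_cast hN) (by norm_num)
      have h3 : (N : ℝ) ^ (5 : ℝ) = (N : ℝ) ^ (5 : ℕ) := by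
        rw [← Real.rpow_natCast]; norm_num
      rw [h3]
      linarith
    have hZc : ∀ p ∈ P j, (((Z j p).image (g p)).card : ℝ) ≤ D2 * (N : ℝ) ^ η * Real.sqrt (2 ^ (j + 1)) := by
      intro p hp
      simp only [hP, Finset.mem_filter, Finset.mem_product, Finset.mem_Icc] at hp
      obtain ⟨⟨⟨hx1, hxN⟩, hA1, hAN⟩, -⟩ := hp
      have hk1 : k * p.2 ≤ N ^ 4 := by
        calc k * p.2 ≤ N * N ^ 3 := Nat.mul_le_mul hkN hAN
          _ = N ^ 4 := by ring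
      have hk2 : k * p.1 ≤ N ^ 4 := by
        calc k * p.1 ≤ N * N ^ 3 := Nat.mul_le_mul hkN hxN
          _ = N ^ 4 := by ring
      have hs1 : |(s : ℝ)| = 1 := by rcases hs with rfl | rfl <;> simp
      have ht1 : |(t : ℝ)| = 1 := by rcases ht with rfl | rfl <;> simp
      have hs0 : s ≠ 0 := by rcases hs with rfl | rfl <;> norm_num
      have ht0 : t ≠ 0 := by rcases ht with rfl | rfl <;> norm_num
      have hk0 : (k : ℤ) ≠ 0 := by positivity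
      have hp1 : (p.1 : ℤ) ≠ 0 := by
        have : 0 < p.1 := hx1
        positivity
      have hp2 : (p.2 : ℤ) ≠ 0 := by
        have : 0 < p.2 := hA1
        positivity
      have key := H4 N hN i hi hiI ((k : ℤ) * s * (p.2 : ℤ)) ((k : ℤ) * t * (p.1 : ℤ))
        (mul_ne_zero (mul_ne_zero hk0 hs0) hp2) (mul_ne_zero (mul_ne_zero hk0 ht0) hp1)
        (by
          push_cast
          rw [abs_mul, abs_mul, hs1, mul_one, Nat.abs_cast, Nat.abs_cast]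
          have := hN5 _ hk1
          push_cast at this
          exact this)
        (by
          push_cast
          rw [abs_mul, abs_mul, ht1, mul_one, Nat.abs_cast, Nat.abs_cast]
          have := hN5 _ hk2
          push_cast at this
          exact this)
        (2 ^ (j + 1)) (Nat.one_le_two_pow) (hN5 _ hY)
      have hcard : (((Z j p).image (g p)).card : ℝ) ≤ ((Z j p).card : ℝ) := by
        exact_mod_cast Finset.card_image_le
      refine le_trans hcard ?_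
      push_cast at key ⊢
      exact key
    have hPc : ((P j).card : ℝ) ≤ D1 * ((N ^ 3 : ℕ) : ℝ) ^ η * (W / 2 ^ j) :=
      H6 (N ^ 3) (Nat.one_le_pow _ _ hN) (W / 2 ^ j) (by positivity)
    have h3η : ((N ^ 3 : ℕ) : ℝ) ^ η = (N : ℝ) ^ (3 * η) := by
      push_cast
      rw [← Real.rpow_natCast, ← Real.rpow_mul hN0.le]
      norm_num
    rw [h3η] at hPc
    have hsum : ((((P j).biUnion (fun p => (Z j p).image (g p))).card : ℕ) : ℝ) ≤
        ((P j).card : ℝ) * (D2 * (N : ℝ) ^ η * Real.sqrt (2 ^ (j + 1))) := by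
      have h1 : ((((P j).biUnion (fun p => (Z j p).image (g p))).card : ℕ) : ℝ) ≤
          ∑ p ∈ P j, (((Z j p).image (g p)).card : ℝ) := by
        exact_mod_cast Finset.card_biUnion_le
      refine le_trans h1 (le_trans (Finset.sum_le_sum hZc) ?_)
      rw [Finset.sum_const, nsmul_eq_mul]
    have hdy := countI_dyadic W V j hV hW hjV
    have h3 : 0 < (N : ℝ) ^ (3 * η) := Real.rpow_pos_of_pos hN0 _
    have h4η : (N : ℝ) ^ (4 * η) = (N : ℝ) ^ (3 * η) * (N : ℝ) ^ η := by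
      rw [← Real.rpow_add hN0]; ring_nf
    calc ((((P j).biUnion (fun p => (Z j p).image (g p))).card : ℕ) : ℝ)
        ≤ ((P j).card : ℝ) * (D2 * (N : ℝ) ^ η * Real.sqrt (2 ^ (j + 1))) := hsum
      _ ≤ (D1 * (N : ℝ) ^ (3 * η) * (W / 2 ^ j)) * (D2 * (N : ℝ) ^ η * Real.sqrt (2 ^ (j + 1))) :=
          mul_le_mul_of_nonneg_right hPc (by positivity)
      _ = (D1 * D2 * (N : ℝ) ^ (4 * η)) * (W / 2 ^ j * Real.sqrt (2 ^ (j + 1))) := by
          rw [h4η]; ring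
      _ ≤ (D1 * D2 * (N : ℝ) ^ (4 * η)) * (2 * (W / Real.sqrt V)) :=
          mul_le_mul_of_nonneg_left hdy (by rw [h4η]; positivity)
      _ = (D1 * D2 * 2) * (N : ℝ) ^ (4 * η) * (W / Real.sqrt V) := by ring
  have hJc : ((J.card : ℕ) : ℝ) ≤ C * (N : ℝ) ^ η := by
    refine le_trans ?_ (HC N hN)
    have : J.card ≤ L := by
      rw [hJ]
      exact le_trans (Finset.card_filter_le _ _) (by rw [Finset.card_range])
    exact_mod_cast this
  have h5η : (N : ℝ) ^ ε = (N : ℝ) ^ η * (N : ℝ) ^ (4 * η) := by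
    rw [← Real.rpow_add hN0, hη]
    ring_nf
  have hWV : 0 ≤ W / Real.sqrt V := by positivity
  have hc1 : (((Icc 1 N).filter (fun n : ℕ => ∃ x A z : ℕ, 1 ≤ x ∧ x ≤ N ^ 3 ∧ 1 ≤ A ∧ A ≤ N ^ 3 ∧ V < z ∧
      z ≤ N ^ 3 ∧ (rad x : ℝ) * rad A * z ≤ W ∧
        (k : ℤ) * (n : ℤ) ^ 2 = s * (A * (z : ℤ) ^ i) + t * x)).card : ℝ) ≤
      ∑ j ∈ J, ((((P j).biUnion (fun p => (Z j p).image (g p))).card : ℕ) : ℝ) := by
    exact_mod_cast le_trans (Finset.card_le_card hcov) Finset.card_biUnion_le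
  refine le_trans hc1 (le_trans (Finset.sum_le_sum hone) ?_)
  rw [Finset.sum_const, nsmul_eq_mul, h5η]
  have h4p : 0 < (N : ℝ) ^ (4 * η) := Real.rpow_pos_of_pos hN0 _
  calc ((J.card : ℕ) : ℝ) * ((D1 * D2 * 2) * (N : ℝ) ^ (4 * η) * (W / Real.sqrt V))
      ≤ (C * (N : ℝ) ^ η) * ((D1 * D2 * 2) * (N : ℝ) ^ (4 * η) * (W / Real.sqrt V)) :=
        mul_le_mul_of_nonneg_right hJc (by positivity)
    _ = C * (D1 * D2 * 2) * ((N : ℝ) ^ η * (N : ℝ) ^ (4 * η)) * (W / Real.sqrt V) := by ring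

end Pool.Agent.NH16.AS
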