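import Pool.Agent.NH16.AS.Stm

set_option autoImplicit false

namespace Pool.Agent.NH16.AS

open Finset Pool.Agent.H785R2.ABC

/-- `n` from `k n ^ 2` -/
def root (k : ℕ) (m : ℤ) : ℕ := Nat.sqrt ((m / (k : ℤ)).toNat)

lemma root_eq (k n : ℕ) (hk : 1 ≤ k) (m : ℤ) (h : (k : ℤ) * (n : ℤ) ^ 2 = m) : root k m = n := by
  unfold root
  have hk0 : (k : ℤ) ≠ 0 := by positivity
  rw [← h, Int.mul_ediv_cancel_left _ hk0]
  have : ((n : ℤ) ^ 2).toNat = n ^ 2 := by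
    have h2 : ((n : ℤ) ^ 2) = ((n ^ 2 : ℕ) : ℤ) := by push_cast; rfl
    rw [h2, Int.toNat_natCast]
  rw [this, Nat.sqrt_eq']

lemma rpow_pow3 (N : ℕ) (ε : ℝ) : ((N ^ 3 : ℕ) : ℝ) ^ (ε / 3) = (N : ℝ) ^ ε := by
  have h0 : (0 : ℝ) ≤ (N : ℝ) := Nat.cast_nonneg _
  push_cast
  rw [← Real.rpow_natCast (N : ℝ) 3, ← Real.rpow_mul h0]
  congr 1
  push_cast
  ring

theorem count (h5 : Split) (h6 : Pairs) (h7 : CountI) : Count := by
  classical
  intro K τ θ H ε hK hε hτ hH hH3 hHK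
  obtain ⟨D1, hD1, p1⟩ := h6 (ε / 3) (by positivity)
  obtain ⟨D2, hD2, p2⟩ := h7 K ε hε
  refine ⟨D1 + K * D2, by positivity, ?_⟩
  intro N hN k hk hkN s t hs ht
  have hN1 : (1 : ℝ) ≤ (N : ℝ) := by exact_mod_cast hN
  have hN0 : (0 : ℝ) < (N : ℝ) := by linarith
  have hKR : (1 : ℝ) ≤ (K : ℝ) := by exact_mod_cast hK
  set κ : ℝ := (τ - H / ((K : ℝ) + 1)) / K with hκ
  have hκ0 : 0 ≤ κ := div_nonneg (by linarith) (by linarith)
  set V : ℝ := (N : ℝ) ^ κ with hV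
  have hV1 : 1 ≤ V := Real.one_le_rpow hN1 hκ0
  set W : ℝ := (N : ℝ) ^ (1 + θ) with hW
  have hW0 : 0 ≤ W := by positivity
  set PP : Finset (ℕ × ℕ) := ((Icc 1 (N ^ 3)) ×ˢ (Icc 1 (N ^ 3))).filter
    (fun t : ℕ × ℕ => (rad t.1 : ℝ) * (rad t.2 : ℝ) ≤ (N : ℝ) ^ (2 * τ)) with hPP
  set S1 : Finset ℕ := PP.image (fun p => root k (s * (p.2 : ℤ) + t * (p.1 : ℤ))) with hS1
  set S2 : ℕ → Finset ℕ := fun i => (Icc 1 N).filter (fun n : ℕ => ∃ x A z : ℕ, 1 ≤ x ∧ x ≤ N ^ 3 ∧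
    1 ≤ A ∧ A ≤ N ^ 3 ∧ V < z ∧ z ≤ N ^ 3 ∧
      (rad x : ℝ) * rad A * z ≤ W ∧ (k : ℤ) * (n : ℤ) ^ 2 = s * (A * (z : ℤ) ^ i) + t * x) with hS2
  have hle3 : ∀ x : ℕ, (x : ℝ) ≤ (N : ℝ) ^ H → x ≤ N ^ 3 := by
    intro x hx
    have h1 : (x : ℝ) ≤ (N : ℝ) ^ (3 : ℝ) := hx.trans (Real.rpow_le_rpow_of_exponent_le hN1 hH3)
    have h2 : (N : ℝ) ^ (3 : ℝ) = ((N ^ 3 : ℕ) : ℝ) := by
      rw [show (3 : ℝ) = ((3 : ℕ) : ℝ) by norm_num, Real.rpow_natCast]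
      push_cast
      rfl
    rw [h2] at h1
    exact_mod_cast h1
  have hsub : (Icc 1 N).filter (fun n : ℕ => ∃ x y : ℕ, 1 ≤ x ∧ (x : ℝ) ≤ (N : ℝ) ^ H ∧ 1 ≤ y ∧
      (y : ℝ) ≤ (N : ℝ) ^ H ∧ rad x ≤ rad y ∧ (rad x : ℝ) * rad y ≤ (N : ℝ) ^ (1 + θ) ∧
      (k : ℤ) * (n : ℤ) ^ 2 = s * y + t * x) ⊆ S1 ∪ (Icc 1 K).biUnion S2 := by
    intro n hn
    rw [mem_filter] at hn
    obtain ⟨hnN, x, y, hx1, hxH, hy1, hyH, hxy, hrad, heq⟩ := hn
    rw [mem_union]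
    by_cases hc : (rad y : ℝ) ≤ (N : ℝ) ^ τ
    · left
      rw [hS1, mem_image]
      refine ⟨(x, y), ?_, root_eq k n hk _ heq⟩
      rw [hPP, mem_filter, mem_product, mem_Icc, mem_Icc]
      refine ⟨⟨⟨hx1, hle3 x hxH⟩, ⟨hy1, hle3 y hyH⟩⟩, ?_⟩
      have h1 : (rad x : ℝ) ≤ (N : ℝ) ^ τ := le_trans (by exact_mod_cast hxy) hc
      calc (rad x : ℝ) * (rad y : ℝ) ≤ (N : ℝ) ^ τ * (N : ℝ) ^ τ := by
            gcongr
        _ = (N : ℝ) ^ (2 * τ) := by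
            rw [← Real.rpow_add hN0]
            congr 1
            ring
    · right
      push Not at hc
      obtain ⟨i, hiK, A, z, hA, hz, hyA, hradA, hbd⟩ := h5 K y hK hy1
      rw [mem_biUnion]
      refine ⟨i + 1, mem_Icc.2 ⟨by omega, by omega⟩, ?_⟩
      rw [hS2, mem_filter]
      have hAy : A ≤ y := by
        rw [hyA]
        exact Nat.le_mul_of_pos_right _ (by positivity)
      have hzy : z ≤ y := by
        rw [hyA]
        calc z = 1 * z ^ 1 := by ring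
          _ ≤ A * z ^ (i + 1) := Nat.mul_le_mul hA (Nat.pow_le_pow_right hz (by omega))
      refine ⟨hnN, x, A, z, hx1, hle3 x hxH, hA, hAy.trans (hle3 y hyH), ?_, hzy.trans (hle3 y hyH), ?_, ?_⟩
      · -- V < z
        by_contra hcon
        push Not at hcon
        have hz0 : (0 : ℝ) < (z : ℝ) := by exact_mod_cast hz
        have h1 : (z : ℝ) ^ (K : ℝ) ≤ V ^ (K : ℝ) := Real.rpow_le_rpow hz0.le hcon (by linarith)
        have h2 : V ^ (K : ℝ) = (N : ℝ) ^ (τ - H / ((K : ℝ) + 1)) := by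
          rw [hV, ← Real.rpow_mul hN0.le]
          congr 1
          rw [hκ]
          field_simp
        have h3 : (y : ℝ) ^ (1 / ((K : ℝ) + 1)) ≤ (N : ℝ) ^ (H / ((K : ℝ) + 1)) := by
          calc (y : ℝ) ^ (1 / ((K : ℝ) + 1)) ≤ ((N : ℝ) ^ H) ^ (1 / ((K : ℝ) + 1)) :=
                Real.rpow_le_rpow (by positivity) hyH (by positivity)
            _ = (N : ℝ) ^ (H / ((K : ℝ) + 1)) := by
                rw [← Real.rpow_mul hN0.le]
                congr 1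
                ring
        have h4 : (rad y : ℝ) ≤ (N : ℝ) ^ τ := by
          calc (rad y : ℝ) ≤ (y : ℝ) ^ (1 / ((K : ℝ) + 1)) * (z : ℝ) ^ (K : ℝ) := hbd
            _ ≤ (N : ℝ) ^ (H / ((K : ℝ) + 1)) * (N : ℝ) ^ (τ - H / ((K : ℝ) + 1)) := by
                rw [← h2]
                gcongr
            _ = (N : ℝ) ^ τ := by
                rw [← Real.rpow_add hN0]
                congr 1
                ring
        linarith
      · have h1 : ((rad A * z : ℕ) : ℝ) = (rad y : ℝ) := by exact_mod_cast hradA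
        push_cast at h1
        rw [mul_assoc, h1]
        exact hrad
      · rw [heq, hyA]
        push_cast
        ring
  have hc1 : (S1.card : ℝ) ≤ D1 * (N : ℝ) ^ ε * (N : ℝ) ^ (2 * τ) := by
    have h1 : (S1.card : ℝ) ≤ (PP.card : ℝ) := by exact_mod_cast card_image_le
    have h2 := p1 (N ^ 3) (Nat.one_le_pow _ _ hN) ((N : ℝ) ^ (2 * τ)) (by positivity)
    rw [rpow_pow3] at h2
    exact h1.trans h2
  have hsV : W / Real.sqrt V = (N : ℝ) ^ (1 + θ - (τ - H / ((K : ℝ) + 1)) / (2 * K)) := by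
    rw [hW, hV, Real.sqrt_eq_rpow, ← Real.rpow_mul hN0.le, ← Real.rpow_sub hN0]
    congr 1
    rw [hκ]
    field_simp
  have hc2 : (((Icc 1 K).biUnion S2).card : ℝ) ≤
      K * D2 * (N : ℝ) ^ ε * (N : ℝ) ^ (1 + θ - (τ - H / ((K : ℝ) + 1)) / (2 * K)) := by
    have h1 : (((Icc 1 K).biUnion S2).card : ℝ) ≤ ∑ i ∈ Icc 1 K, ((S2 i).card : ℝ) := by
      exact_mod_cast card_biUnion_le
    refine h1.trans ?_
    calc ∑ i ∈ Icc 1 K, ((S2 i).card : ℝ) ≤ ∑ i ∈ Icc 1 K, D2 * (N : ℝ) ^ ε * (W / Real.sqrt V) := by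
          refine Finset.sum_le_sum fun i hi => ?_
          rw [mem_Icc] at hi
          have h2 := p2 N hN k hk hkN s t hs ht i hi.1 hi.2 V W hV1 hW0
          refine le_trans (le_of_eq ?_) h2
          congr 2
      _ = K * D2 * (N : ℝ) ^ ε * (N : ℝ) ^ (1 + θ - (τ - H / ((K : ℝ) + 1)) / (2 * K)) := by
          rw [Finset.sum_const, Nat.card_Icc, nsmul_eq_mul, hsV]
          simp only [Nat.add_sub_cancel]
          ring
  calc _ ≤ (((S1 ∪ (Icc 1 K).biUnion S2).card : ℕ) : ℝ) := by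
        have := Finset.card_le_card hsub
        refine le_trans (le_of_eq ?_) (Nat.cast_le.2 this)
        congr 2
    _ ≤ (S1.card : ℝ) + (((Icc 1 K).biUnion S2).card : ℝ) := by
        exact_mod_cast card_union_le _ _
    _ ≤ D1 * (N : ℝ) ^ ε * (N : ℝ) ^ (2 * τ) +
        K * D2 * (N : ℝ) ^ ε * (N : ℝ) ^ (1 + θ - (τ - H / ((K : ℝ) + 1)) / (2 * K)) := add_le_add hc1 hc2
    _ ≤ (D1 + K * D2) * (N : ℝ) ^ ε * ((N : ℝ) ^ (2 * τ) +
        (N : ℝ) ^ (1 + θ - (τ - H / ((K : ℝ) + 1)) / (2 * K))) := by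
        have a1 : 0 ≤ (N : ℝ) ^ ε := by positivity
        have a2 : 0 ≤ (N : ℝ) ^ (2 * τ) := by positivity
        have a3 : 0 ≤ (N : ℝ) ^ (1 + θ - (τ - H / ((K : ℝ) + 1)) / (2 * K)) := by positivity
        have a4 : 0 ≤ D1 * (N : ℝ) ^ ε * (N : ℝ) ^ (1 + θ - (τ - H / ((K : ℝ) + 1)) / (2 * K)) := by positivity
        have a5 : 0 ≤ K * D2 * (N : ℝ) ^ ε * (N : ℝ) ^ (2 * τ) := by positivity
        nlinarith

end Pool.Agent.NH16.AS
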