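import Pool.Agent.NH16.AS.Stm

set_option autoImplicit false

namespace Pool.Agent.NH16.AS

open Finset Filter Pool.Agent.H785R2.ABC

/-- every abc-triple with a member `k n ^ 2`, `1 ≤ k ≤ n ^ δ`, and `c ≤ n ^ (2 + δ)` has
`rad (abc) > c ^ (1 + δ)` -/
def Good (δ : ℝ) (n : ℕ) : Prop :=
  ∀ k a b : ℕ, 1 ≤ k → (k : ℝ) ≤ (n : ℝ) ^ δ → 0 < a → 0 < b → Nat.Coprime a b →
    (a = k * n ^ 2 ∨ b = k * n ^ 2 ∨ a + b = k * n ^ 2) → ((a + b : ℕ) : ℝ) ≤ (n : ℝ) ^ (2 + δ) →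
      ((a + b : ℕ) : ℝ) ^ (1 + δ) < (rad (a * b * (a + b)) : ℝ)

lemma rad_pos (n : ℕ) : 1 ≤ rad n :=
  Nat.one_le_iff_ne_zero.mpr (Finset.prod_ne_zero_iff.mpr fun _ hp =>
    (Nat.prime_of_mem_primeFactors hp).ne_zero)

lemma rad_mul {a b : ℕ} (h : Nat.Coprime a b) : rad (a * b) = rad a * rad b := by
  unfold rad
  rw [h.primeFactors_mul, Finset.prod_union h.disjoint_primeFactors]

lemma rad_triple {a b : ℕ} (h : Nat.Coprime a b) : rad (a * b * (a + b)) = rad a * rad b * rad (a + b) := by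
  have h1 : Nat.Coprime (a * b) (a + b) := by
    apply Nat.Coprime.mul_left
    · simpa using h
    · simpa using h.symm
  rw [rad_mul h1, rad_mul h]

lemma rad_sq_le {k n : ℕ} (hk : 1 ≤ k) (hn : 1 ≤ n) : rad n ≤ rad (k * n ^ 2) := by
  unfold rad
  apply Finset.prod_le_prod_of_subset_of_one_le'
  · apply Nat.primeFactors_mono
    · exact Dvd.dvd.mul_left (dvd_pow_self n (by norm_num)) k
    · positivity
  · intro p hp _
    exact (Nat.prime_of_mem_primeFactors hp).one_lt.le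

/-- `D N ^ u ≤ N ^ v / 3` for large `N` -/
lemma ev (D u v : ℝ) (h : u < v) : ∃ N₀ : ℕ, ∀ N : ℕ, N₀ ≤ N → D * (N : ℝ) ^ u ≤ (N : ℝ) ^ v / 3 := by
  have h1 : Tendsto (fun x : ℝ => x ^ (v - u)) atTop atTop := tendsto_rpow_atTop (by linarith)
  have h2 := (h1.eventually_ge_atTop (3 * D)).and (eventually_ge_atTop (1 : ℝ))
  obtain ⟨x₀, hx⟩ := Filter.eventually_atTop.1 h2
  refine ⟨⌈x₀⌉₊, fun N hN => ?_⟩
  have hN' : x₀ ≤ (N : ℝ) := (Nat.le_ceil x₀).trans (by exact_mod_cast hN)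
  obtain ⟨a1, a2⟩ := hx N hN'
  have hN0 : (0 : ℝ) < (N : ℝ) := by linarith
  have a3 : (N : ℝ) ^ v = (N : ℝ) ^ (v - u) * (N : ℝ) ^ u := by
    rw [← Real.rpow_add hN0]
    congr 1
    ring
  rw [a3]
  have a4 : 0 < (N : ℝ) ^ u := by positivity
  nlinarith

open Classical in
/-- the set of the count with signs -/
noncomputable def Sset (N k : ℕ) (θ H : ℝ) (s t : ℤ) : Finset ℕ :=
  (Icc 1 N).filter (fun n : ℕ => ∃ x y : ℕ, 1 ≤ x ∧ (x : ℝ) ≤ (N : ℝ) ^ H ∧ 1 ≤ y ∧ (y : ℝ) ≤ (N : ℝ) ^ H ∧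
      rad x ≤ rad y ∧ (rad x : ℝ) * rad y ≤ (N : ℝ) ^ (1 + θ) ∧
      (k : ℤ) * (n : ℤ) ^ 2 = s * y + t * x)

lemma mem_Sset_of {N k n : ℕ} {θ H : ℝ} (hn : n ∈ Icc 1 N) {s t : ℤ} (x y : ℕ) (hx : 1 ≤ x) (hy : 1 ≤ y)
    (hxH : (x : ℝ) ≤ (N : ℝ) ^ H) (hyH : (y : ℝ) ≤ (N : ℝ) ^ H)
    (hrad : (rad x : ℝ) * rad y ≤ (N : ℝ) ^ (1 + θ)) (heq : (k : ℤ) * (n : ℤ) ^ 2 = s * y + t * x) :
    n ∈ Sset N k θ H s t ∪ Sset N k θ H t s := by
  classical
  rw [mem_union]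
  rcases le_total (rad x) (rad y) with h | h
  · left
    unfold Sset
    rw [mem_filter]
    exact ⟨hn, x, y, hx, hxH, hy, hyH, h, hrad, heq⟩
  · right
    unfold Sset
    rw [mem_filter]
    exact ⟨hn, y, x, hy, hyH, hx, hxH, h, by rw [mul_comm]; exact hrad, by rw [heq]; ring⟩

open Classical in
theorem main (h8 : Count) (h4 : StmtA4) : ∃ N₀ : ℕ, ∀ N : ℕ, N₀ ≤ N →
    (((Icc 1 N).filter (fun n : ℕ => ¬ Good (1 / 400) n)).card : ℝ) ≤ (N : ℝ) ^ (1 - 1 / 400 : ℝ) := by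
  obtain ⟨δ, hδ⟩ : ∃ δ : ℝ, δ = 1 / 400 := ⟨_, rfl⟩
  obtain ⟨H, hH⟩ : ∃ H : ℝ, H = 2 + 1 / 400 := ⟨_, rfl⟩
  obtain ⟨θ, hθ⟩ : ∃ θ : ℝ, θ = 1051 / 100000 := ⟨_, rfl⟩
  obtain ⟨D1, hD1, p1⟩ := h4 (3 / 10000) (by norm_num)
  obtain ⟨D2, hD2, p2⟩ := h8 7 (49 / 100) θ H (3 / 10000) (by norm_num) (by norm_num) (by norm_num)
    (by rw [hH]; norm_num) (by rw [hH]; norm_num) (by rw [hH]; norm_num)
  obtain ⟨N1, e1⟩ := ev D1 (1 - 27 / 10000) (1 - 1 / 400) (by norm_num)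
  obtain ⟨N2, e2⟩ := ev (4 * D2) (28 / 10000 + 98 / 100) (1 - 1 / 400) (by norm_num)
  obtain ⟨N3, e3⟩ := ev (4 * D2) (28 / 10000 + (1 + θ - (49 / 100 - H / 8) / 14)) (1 - 1 / 400)
    (by rw [hθ, hH]; norm_num)
  refine ⟨max (max N1 N2) (max N3 1), fun N hN => ?_⟩
  have g1 : N1 ≤ N := le_trans (le_trans (le_max_left _ _) (le_max_left _ _)) hN
  have g2 : N2 ≤ N := le_trans (le_trans (le_max_right _ _) (le_max_left _ _)) hN
  have g3 : N3 ≤ N := le_trans (le_trans (le_max_left _ _) (le_max_right _ _)) hN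
  have g4 : 1 ≤ N := le_trans (le_trans (le_max_right _ _) (le_max_right _ _)) hN
  have hN1 : (1 : ℝ) ≤ (N : ℝ) := by exact_mod_cast g4
  have hN0 : (0 : ℝ) < (N : ℝ) := by linarith
  rw [← hδ]
  set η : ℝ := 3 / 1000 with hη
  set B1 : Finset ℕ := (Icc 1 N).filter (fun d => (rad d : ℝ) ≤ (N : ℝ) ^ (1 - η)) with hB1
  set Kk : ℕ := ⌊(N : ℝ) ^ δ⌋₊ with hKk
  have hKkN : Kk ≤ N := by
    have h1 : (N : ℝ) ^ δ ≤ (N : ℝ) ^ (1 : ℝ) := Real.rpow_le_rpow_of_exponent_le hN1 (by rw [hδ]; norm_num)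
    rw [Real.rpow_one] at h1
    calc Kk ≤ ⌊(N : ℝ)⌋₊ := Nat.floor_le_floor h1
      _ = N := Nat.floor_natCast N
  have hsub : (Icc 1 N).filter (fun n : ℕ => ¬ Good δ n) ⊆ B1 ∪ (Icc 1 Kk).biUnion (fun k =>
      (Sset N k θ H 1 1 ∪ Sset N k θ H 1 1) ∪ (Sset N k θ H 1 (-1) ∪ Sset N k θ H (-1) 1)) := by
    intro n hn
    rw [mem_filter] at hn
    obtain ⟨hnN, hbad⟩ := hn
    have hnN' := mem_Icc.1 hnN
    rw [mem_union]
    by_cases hr : (rad n : ℝ) ≤ (N : ℝ) ^ (1 - η)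
    · left
      rw [hB1, mem_filter]
      exact ⟨hnN, hr⟩
    · right
      push Not at hr
      unfold Good at hbad
      push Not at hbad
      obtain ⟨k, a, b, hk, hkn, ha, hb, hab, hmem, hcn, hrad⟩ := hbad
      have hnR : (n : ℝ) ≤ (N : ℝ) := by exact_mod_cast hnN'.2
      have hn0 : (0 : ℝ) ≤ (n : ℝ) := Nat.cast_nonneg _
      have hδ0 : 0 < δ := by rw [hδ]; norm_num
      have hkK : k ≤ Kk := by
        rw [hKk]
        apply Nat.le_floor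
        exact hkn.trans (Real.rpow_le_rpow hn0 hnR hδ0.le)
      have hcN : ((a + b : ℕ) : ℝ) ≤ (N : ℝ) ^ H := by
        rw [hH, ← hδ]
        exact hcn.trans (Real.rpow_le_rpow hn0 hnR (by linarith))
      have haN : (a : ℝ) ≤ (N : ℝ) ^ H := le_trans (by push_cast; linarith [(Nat.cast_nonneg b : (0 : ℝ) ≤ b)]) hcN
      have hbN : (b : ℝ) ≤ (N : ℝ) ^ H := le_trans (by push_cast; linarith [(Nat.cast_nonneg a : (0 : ℝ) ≤ a)]) hcN
      have hradN : (rad a : ℝ) * rad b * rad (a + b) ≤ (N : ℝ) ^ (H * (1 + δ)) := by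
        have h1 : (rad (a * b * (a + b)) : ℝ) = (rad a : ℝ) * rad b * rad (a + b) := by
          rw [rad_triple hab]
          push_cast
          ring
        rw [← h1, Real.rpow_mul hN0.le]
        exact hrad.trans (Real.rpow_le_rpow (Nat.cast_nonneg _) hcN (by linarith))
      have hn1 : 1 ≤ n := hnN'.1
      have hrs : (N : ℝ) ^ (1 - η) ≤ (rad (k * n ^ 2) : ℝ) := by
        refine hr.le.trans ?_
        exact_mod_cast rad_sq_le hk hn1
      -- the product of the radicals of the other two members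
      have key : ∀ u v : ℝ, u * (rad (k * n ^ 2) : ℝ) = v → 0 ≤ u → v ≤ (N : ℝ) ^ (H * (1 + δ)) →
          u ≤ (N : ℝ) ^ (1 + θ) := by
        intro u v huv hu hv
        have h1 : u * (N : ℝ) ^ (1 - η) ≤ (N : ℝ) ^ (H * (1 + δ)) := by
          calc u * (N : ℝ) ^ (1 - η) ≤ u * (rad (k * n ^ 2) : ℝ) := mul_le_mul_of_nonneg_left hrs hu
            _ = v := huv
            _ ≤ _ := hv
        have h2 : (N : ℝ) ^ (H * (1 + δ)) ≤ (N : ℝ) ^ (1 + θ) * (N : ℝ) ^ (1 - η) := by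
          rw [← Real.rpow_add hN0]
          apply Real.rpow_le_rpow_of_exponent_le hN1
          rw [hH, hδ, hθ, hη]
          norm_num
        have h3 : 0 < (N : ℝ) ^ (1 - η) := by positivity
        exact le_of_mul_le_mul_right (h1.trans h2) h3
      rw [mem_biUnion]
      refine ⟨k, mem_Icc.2 ⟨hk, hkK⟩, ?_⟩
      rw [mem_union]
      rcases hmem with hm | hm | hm
      · right
        apply mem_Sset_of hnN b (a + b) hb (by omega) hbN hcN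
        · apply key _ ((rad a : ℝ) * rad b * rad (a + b)) _ (by positivity) hradN
          rw [← hm]
          ring
        · have : (k : ℤ) * (n : ℤ) ^ 2 = ((k * n ^ 2 : ℕ) : ℤ) := by push_cast; ring
          rw [this, ← hm]
          push_cast
          ring
      · right
        apply mem_Sset_of hnN a (a + b) ha (by omega) haN hcN
        · apply key _ ((rad a : ℝ) * rad b * rad (a + b)) _ (by positivity) hradN
          rw [← hm]
          ring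
        · have : (k : ℤ) * (n : ℤ) ^ 2 = ((k * n ^ 2 : ℕ) : ℤ) := by push_cast; ring
          rw [this, ← hm]
          push_cast
          ring
      · left
        apply mem_Sset_of hnN a b ha hb haN hbN
        · apply key _ ((rad a : ℝ) * rad b * rad (a + b)) _ (by positivity) hradN
          rw [← hm]
        · have : (k : ℤ) * (n : ℤ) ^ 2 = ((k * n ^ 2 : ℕ) : ℤ) := by push_cast; ring
          rw [this, ← hm]
          push_cast
          ring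
  have hB1c : (B1.card : ℝ) ≤ (N : ℝ) ^ (1 - 1 / 400 : ℝ) / 3 := by
    have h1 := p1 N g4 ((N : ℝ) ^ (1 - η)) (by positivity)
    have h2 : D1 * (N : ℝ) ^ (3 / 10000 : ℝ) * (N : ℝ) ^ (1 - η) = D1 * (N : ℝ) ^ (1 - 27 / 10000 : ℝ) := by
      rw [mul_assoc, ← Real.rpow_add hN0]
      congr 2
      rw [hη]
      norm_num
    rw [h2] at h1
    exact h1.trans (e1 N g1)
  set Wd : ℝ := D2 * (N : ℝ) ^ (3 / 10000 : ℝ) * ((N : ℝ) ^ (2 * (49 / 100) : ℝ) +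
    (N : ℝ) ^ (1 + θ - (49 / 100 - H / (((7 : ℕ) : ℝ) + 1)) / (2 * ((7 : ℕ) : ℝ)))) with hWd
  have hS : ∀ k ∈ Icc 1 Kk, ∀ s t : ℤ, (s = 1 ∨ s = -1) → (t = 1 ∨ t = -1) →
      ((Sset N k θ H s t).card : ℝ) ≤ Wd := by
    intro k hk s t hs ht
    rw [mem_Icc] at hk
    exact p2 N g4 k hk.1 (hk.2.trans hKkN) s t hs ht
  have hWd0 : 0 ≤ Wd := by positivity
  have hUc : (((Icc 1 Kk).biUnion (fun k =>
      (Sset N k θ H 1 1 ∪ Sset N k θ H 1 1) ∪ (Sset N k θ H 1 (-1) ∪ Sset N k θ H (-1) 1))).card : ℝ) ≤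
      (N : ℝ) ^ δ * (4 * Wd) := by
    have h1 : (((Icc 1 Kk).biUnion (fun k =>
      (Sset N k θ H 1 1 ∪ Sset N k θ H 1 1) ∪ (Sset N k θ H 1 (-1) ∪ Sset N k θ H (-1) 1))).card : ℝ) ≤
      ∑ k ∈ Icc 1 Kk, ((((Sset N k θ H 1 1 ∪ Sset N k θ H 1 1) ∪
        (Sset N k θ H 1 (-1) ∪ Sset N k θ H (-1) 1)).card : ℕ) : ℝ) := by
      exact_mod_cast card_biUnion_le
    refine h1.trans ?_
    have h2 : ∀ k ∈ Icc 1 Kk, ((((Sset N k θ H 1 1 ∪ Sset N k θ H 1 1) ∪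
        (Sset N k θ H 1 (-1) ∪ Sset N k θ H (-1) 1)).card : ℕ) : ℝ) ≤ 4 * Wd := by
      intro k hk
      have c1 := hS k hk 1 1 (Or.inl rfl) (Or.inl rfl)
      have c2 := hS k hk 1 (-1) (Or.inl rfl) (Or.inr rfl)
      have c3 := hS k hk (-1) 1 (Or.inr rfl) (Or.inl rfl)
      have c4 : (((Sset N k θ H 1 1 ∪ Sset N k θ H 1 1) ∪
        (Sset N k θ H 1 (-1) ∪ Sset N k θ H (-1) 1)).card : ℕ) ≤
        ((Sset N k θ H 1 1).card + (Sset N k θ H 1 1).card) +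
          ((Sset N k θ H 1 (-1)).card + (Sset N k θ H (-1) 1).card) :=
        (card_union_le _ _).trans (add_le_add (card_union_le _ _) (card_union_le _ _))
      have c5 : ((((Sset N k θ H 1 1 ∪ Sset N k θ H 1 1) ∪
        (Sset N k θ H 1 (-1) ∪ Sset N k θ H (-1) 1)).card : ℕ) : ℝ) ≤
        (((Sset N k θ H 1 1).card : ℝ) + (Sset N k θ H 1 1).card) +
          ((Sset N k θ H 1 (-1)).card + (Sset N k θ H (-1) 1).card) := by exact_mod_cast c4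
      linarith
    calc ∑ k ∈ Icc 1 Kk, ((((Sset N k θ H 1 1 ∪ Sset N k θ H 1 1) ∪
        (Sset N k θ H 1 (-1) ∪ Sset N k θ H (-1) 1)).card : ℕ) : ℝ) ≤ ∑ k ∈ Icc 1 Kk, 4 * Wd :=
          Finset.sum_le_sum h2
      _ = (Kk : ℝ) * (4 * Wd) := by
          rw [Finset.sum_const, Nat.card_Icc, nsmul_eq_mul]
          simp
      _ ≤ (N : ℝ) ^ δ * (4 * Wd) := by
          apply mul_le_mul_of_nonneg_right _ (by positivity)
          exact Nat.floor_le (by positivity)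
  have hfin : (N : ℝ) ^ δ * (4 * Wd) ≤ (N : ℝ) ^ (1 - 1 / 400 : ℝ) / 3 + (N : ℝ) ^ (1 - 1 / 400 : ℝ) / 3 := by
    have h1 : (N : ℝ) ^ δ * (4 * Wd) = 4 * D2 * (N : ℝ) ^ (28 / 10000 + 98 / 100 : ℝ) +
        4 * D2 * (N : ℝ) ^ (28 / 10000 + (1 + θ - (49 / 100 - H / 8) / 14) : ℝ) := by
      have x1 : (N : ℝ) ^ (28 / 10000 + 98 / 100 : ℝ) =
          (N : ℝ) ^ δ * (N : ℝ) ^ (3 / 10000 : ℝ) * (N : ℝ) ^ (2 * (49 / 100) : ℝ) := by
        rw [← Real.rpow_add hN0, ← Real.rpow_add hN0]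
        congr 1
        rw [hδ]
        norm_num
      have x2 : (N : ℝ) ^ (28 / 10000 + (1 + θ - (49 / 100 - H / 8) / 14) : ℝ) =
          (N : ℝ) ^ δ * (N : ℝ) ^ (3 / 10000 : ℝ) *
            (N : ℝ) ^ (1 + θ - (49 / 100 - H / (((7 : ℕ) : ℝ) + 1)) / (2 * ((7 : ℕ) : ℝ))) := by
        rw [← Real.rpow_add hN0, ← Real.rpow_add hN0]
        congr 1
        rw [hδ]
        push_cast
        ring
      rw [x1, x2, hWd]
      ring
    rw [h1]
    exact add_le_add (e2 N g2) (e3 N g3)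
  rw [← hδ] at hB1c hfin
  have hcard := Finset.card_le_card hsub
  have hcard2 : (((Icc 1 N).filter (fun n : ℕ => ¬ Good δ n)).card : ℝ) ≤ (B1.card : ℝ) +
      (((Icc 1 Kk).biUnion (fun k =>
      (Sset N k θ H 1 1 ∪ Sset N k θ H 1 1) ∪ (Sset N k θ H 1 (-1) ∪ Sset N k θ H (-1) 1))).card : ℝ) := by
    exact_mod_cast hcard.trans (card_union_le _ _)
  linarith

end Pool.Agent.NH16.AS
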