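import Pool.Agent.NH16.AS.Stm
import Pool.Agent.TH915.UC.PAP

/-!
# Primes `-1` mod `M` not dividing `m`
-/

set_option autoImplicit false

open Finset Filter Topology Asymptotics

namespace Pool.Agent.NH16.AS

namespace Pm

theorem card_pf (m : ℕ) (hm : 1 ≤ m) :
    (m.primeFactors.card : ℝ) ≤ Real.log m / Real.log 2 := by
  have h1 : 2 ^ m.primeFactors.card ≤ m := by
    calc 2 ^ m.primeFactors.card = ∏ _p ∈ m.primeFactors, 2 := by rw [Finset.prod_const]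
      _ ≤ ∏ p ∈ m.primeFactors, p := Finset.prod_le_prod (fun _ _ => by norm_num)
          fun p hp => (Nat.prime_of_mem_primeFactors hp).two_le
      _ ≤ m := Nat.le_of_dvd hm (Nat.prod_primeFactors_dvd m)
  have h2 : (2 : ℝ) ^ m.primeFactors.card ≤ m := by exact_mod_cast h1
  have h3 := Real.log_le_log (by positivity) h2
  rw [Real.log_pow] at h3
  rw [le_div_iff₀ (Real.log_pos (by norm_num))]
  exact h3

end Pm

theorem primesM : PrimesM := by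
  intro M hM ε hε
  obtain ⟨k, rfl⟩ : ∃ k, M = k + 1 := ⟨M - 1, by omega⟩
  have hcop : k.Coprime (k + 1) := by simp
  have hφ0 : (0 : ℝ) < (k + 1).totient := by exact_mod_cast Nat.totient_pos.2 (Nat.succ_pos k)
  obtain ⟨φ, hφ⟩ : ∃ φ : ℝ, φ = ((k + 1).totient : ℝ) := ⟨_, rfl⟩
  rw [← hφ] at hφ0
  have h1 := Pool.Agent.TH915.UC.primes_ap_lower (k + 1) k (Nat.succ_pos k) hcop
  have h2 : ∀ᶠ x : ℝ in atTop, ‖Real.log x‖ ≤ 1 / (8 * φ) * ‖x ^ ε‖ :=
    (isLittleO_log_rpow_atTop hε).bound (by positivity)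
  have h3 : ∀ᶠ x : ℝ in atTop, ‖Real.log x‖ ≤ 1 / (56 * φ) * ‖x ^ (1 : ℝ)‖ :=
    (isLittleO_log_rpow_atTop one_pos).bound (by positivity)
  obtain ⟨X, hX⟩ := Filter.eventually_atTop.1 (h1.and (h2.and (h3.and (eventually_ge_atTop (2 : ℝ)))))
  refine ⟨1, one_pos, ⌈X⌉₊, fun Q hQ m hm => ?_⟩
  have hQX : X ≤ (Q : ℝ) := (Nat.le_ceil X).trans (by exact_mod_cast hQ)
  obtain ⟨g1, g2, g3, g4⟩ := hX Q hQX
  have hQ0 : (0 : ℝ) < Q := by linarith
  have hlog : 0 < Real.log Q := Real.log_pos (by linarith)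
  rw [Real.norm_of_nonneg hlog.le, Real.norm_of_nonneg (by positivity)] at g2 g3
  rw [Real.rpow_one] at g3
  rw [← hφ, Nat.floor_natCast] at g1
  have hsub : (Icc 1 Q).filter (fun p => p.Prime ∧ p ≡ k [MOD (k + 1)]) ⊆
      ((Icc 1 Q).filter (fun p => p.Prime ∧ 7 ≤ p ∧ (k + 1) ∣ p + 1 ∧ ¬ p ∣ m)) ∪
        (Finset.range 7 ∪ m.primeFactors) := by
    intro p hp
    rw [Finset.mem_filter] at hp
    obtain ⟨hpQ, hpp, hpk⟩ := hp
    rw [Finset.mem_union, Finset.mem_union, Finset.mem_filter, Finset.mem_range,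
      Nat.mem_primeFactors]
    by_cases h7 : p < 7
    · exact Or.inr (Or.inl h7)
    by_cases hpm : p ∣ m
    · exact Or.inr (Or.inr ⟨hpp, hpm, by omega⟩)
    refine Or.inl ⟨hpQ, hpp, by omega, ?_, hpm⟩
    have h4 : p + 1 ≡ k + 1 [MOD (k + 1)] := hpk.add_right 1
    have h5 : k + 1 ≡ 0 [MOD (k + 1)] := by
      rw [Nat.modEq_zero_iff_dvd]
    exact (Nat.modEq_zero_iff_dvd).1 (h4.trans h5)
  have hcard := (Finset.card_le_card hsub).trans ((Finset.card_union_le _ _).trans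
    (Nat.add_le_add_left (Finset.card_union_le _ _) _))
  rw [Finset.card_range] at hcard
  have hcard' : (((Icc 1 Q).filter (fun p => p.Prime ∧ p ≡ k [MOD (k + 1)])).card : ℝ) ≤
      (((Icc 1 Q).filter (fun p => p.Prime ∧ 7 ≤ p ∧ (k + 1) ∣ p + 1 ∧ ¬ p ∣ m)).card : ℝ) +
        (7 + (m.primeFactors.card : ℝ)) := by exact_mod_cast hcard
  have hpf := Pm.card_pf m hm
  have hmain : (Q : ℝ) ^ (1 - ε) + 7 ≤ (Q : ℝ) / (2 * φ * Real.log Q) := by
    rw [le_div_iff₀ (by positivity)]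
    have e1 : (Q : ℝ) ^ (1 - ε) * (Q : ℝ) ^ ε = Q := by
      rw [← Real.rpow_add hQ0, sub_add_cancel, Real.rpow_one]
    have h5 : (Q : ℝ) ^ (1 - ε) * (2 * φ * Real.log Q) ≤ Q / 4 := by
      calc (Q : ℝ) ^ (1 - ε) * (2 * φ * Real.log Q) ≤
          (Q : ℝ) ^ (1 - ε) * (2 * φ * (1 / (8 * φ) * (Q : ℝ) ^ ε)) := by gcongr
        _ = ((Q : ℝ) ^ (1 - ε) * (Q : ℝ) ^ ε) / 4 := by field_simp; ring
        _ = Q / 4 := by rw [e1]
    have h6 : 7 * (2 * φ * Real.log Q) ≤ Q / 4 := by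
      calc 7 * (2 * φ * Real.log Q) ≤ 7 * (2 * φ * (1 / (56 * φ) * (Q : ℝ))) := by gcongr
        _ = Q / 4 := by field_simp; ring
    nlinarith
  linarith

end Pool.Agent.NH16.AS
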