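import Pool.Agent.NH16.AS.Stm
import Pool.Agent.H785R2.ABC.A345
import Pool.Agent.H785R2.ABC.A12

/-!
# Project AS, J6: pairs with `rad x * rad y ≤ R` (helper79)
-/

set_option autoImplicit false

namespace Pool.Agent.NH16.AS

open Finset Pool.Agent.H785R2.ABC

theorem pr_rad_pos (n : ℕ) : 1 ≤ rad n := by
  unfold rad
  exact Nat.one_le_iff_ne_zero.2 (Finset.prod_ne_zero_iff.2 fun p hp =>
    (Nat.prime_of_mem_primeFactors hp).ne_zero)

theorem pairs : Pairs := by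
  intro ε hε
  obtain ⟨D1, hD1, h1⟩ := stmtA4_of (stmtA3_of stmtA2) (ε / 2) (by positivity)
  obtain ⟨D2, hD2, h2⟩ := stmtA3_of stmtA2 (ε / 2) (by positivity)
  refine ⟨D1 * D2, by positivity, fun X hX R hR => ?_⟩
  have hX0 : (0 : ℝ) < X := by exact_mod_cast hX
  have e : ((((Icc 1 X) ×ˢ (Icc 1 X)).filter
      (fun t : ℕ × ℕ => (rad t.1 : ℝ) * (rad t.2 : ℝ) ≤ R)).card : ℝ) =
      ∑ x ∈ Icc 1 X, (((Icc 1 X).filter (fun y => (rad x : ℝ) * (rad y : ℝ) ≤ R)).card : ℝ) := by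
    rw [Finset.card_filter, Finset.sum_product]
    push_cast
    refine Finset.sum_congr rfl fun x _ => ?_
    rw [Finset.card_filter]
    push_cast
    rfl
  rw [e]
  have hx : ∀ x ∈ Icc 1 X,
      (((Icc 1 X).filter (fun y => (rad x : ℝ) * (rad y : ℝ) ≤ R)).card : ℝ) ≤
        D1 * (X : ℝ) ^ (ε / 2) * R * (1 / (rad x : ℝ)) := by
    intro x _
    have hr : (0 : ℝ) < rad x := by exact_mod_cast pr_rad_pos x
    have h3 : ((Icc 1 X).filter (fun y => (rad x : ℝ) * (rad y : ℝ) ≤ R)) ⊆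
        (Icc 1 X).filter (fun y => (rad y : ℝ) ≤ R / rad x) := by
      intro y hy
      rw [mem_filter] at hy ⊢
      refine ⟨hy.1, ?_⟩
      rw [le_div_iff₀ hr, mul_comm]
      exact hy.2
    have h4 : (((Icc 1 X).filter (fun y => (rad x : ℝ) * (rad y : ℝ) ≤ R)).card : ℝ) ≤
        (((Icc 1 X).filter (fun y => (rad y : ℝ) ≤ R / rad x)).card : ℝ) := by
      exact_mod_cast card_le_card h3
    refine h4.trans ((h1 X hX (R / rad x) (by positivity)).trans (le_of_eq ?_))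
    ring
  refine (Finset.sum_le_sum hx).trans ?_
  rw [← Finset.mul_sum]
  have h5 : ∑ x ∈ Icc 1 X, (1 : ℝ) / (rad x : ℝ) ≤ D2 * (X : ℝ) ^ (ε / 2) := by
    have h6 := h2 X hX 1 le_rfl
    simp only [one_dvd, Finset.filter_true, Nat.cast_one, div_one] at h6
    exact h6
  have h7 : (X : ℝ) ^ (ε / 2) * (X : ℝ) ^ (ε / 2) = (X : ℝ) ^ ε := by
    rw [← Real.rpow_add hX0]
    congr 1
    ring
  calc D1 * (X : ℝ) ^ (ε / 2) * R * ∑ x ∈ Icc 1 X, (1 : ℝ) / (rad x : ℝ)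
      ≤ D1 * (X : ℝ) ^ (ε / 2) * R * (D2 * (X : ℝ) ^ (ε / 2)) :=
        mul_le_mul_of_nonneg_left h5 (by positivity)
    _ = D1 * D2 * ((X : ℝ) ^ (ε / 2) * (X : ℝ) ^ (ε / 2)) * R := by ring
    _ = D1 * D2 * (X : ℝ) ^ ε * R := by rw [h7]

end Pool.Agent.NH16.AS
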