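import Pool.Agent.NH16.AS.Stm
import Pool.Agent.H785R2.ABC.Basics

/-!
# AS, J5: `n = A z ^ (i + 1)` with `z` large (helper17)
-/

set_option autoImplicit false

namespace Pool.Agent.NH16.AS

open Finset Pool.Agent.H785R2.ABC

theorem split : Split := by
  intro K n hK hn
  have B := basics
  have hne : ((univ : Finset (Fin (K + 1))).erase (Fin.last K)).Nonempty := by
    refine ⟨⟨0, by omega⟩, mem_erase.2 ⟨?_, mem_univ _⟩⟩
    intro h
    have := congrArg Fin.val h
    rw [Fin.val_last] at this
    simp only at this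
    omega
  obtain ⟨i, hi, hmax⟩ := exists_max_image _ (fun i => rd K n {i}) hne
  have hiK : (i : ℕ) < K := by
    have h1 : i ≠ Fin.last K := (mem_erase.1 hi).1
    have h2 : (i : ℕ) ≠ K := fun h => h1 (Fin.ext (by rw [h, Fin.val_last]))
    have := i.2
    omega
  refine ⟨i, hiK, part K n {i}ᶜ, rd K n {i}, B.part_pos _ _ _, B.rd_pos _ _ _, ?_, ?_, ?_⟩
  · rw [← B.part_single K n i hiK, mul_comm]
    exact (B.part_mul K n {i} hn).symm
  · rw [B.rad_part K n _ hn, mul_comm]
    exact B.rd_mul K n {i}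
  · have h1 : rad n = rd K n {Fin.last K} *
        ∏ j ∈ (univ : Finset (Fin (K + 1))).erase (Fin.last K), rd K n {j} := by
      rw [← B.rd_univ K n, B.rd_prod K n univ]
      exact (mul_prod_erase univ (fun j => rd K n {j}) (mem_univ (Fin.last K))).symm
    have h2 : ∏ j ∈ (univ : Finset (Fin (K + 1))).erase (Fin.last K), rd K n {j} ≤
        rd K n {i} ^ K := by
      have h := prod_le_pow_card ((univ : Finset (Fin (K + 1))).erase (Fin.last K))
        (fun j => rd K n {j}) (rd K n {i}) (fun j hj => hmax j hj)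
      rwa [card_erase_of_mem (mem_univ _), card_univ, Fintype.card_fin, Nat.add_sub_cancel] at h
    have h3 : rd K n {Fin.last K} ^ (K + 1) ≤ n :=
      (B.part_last K n).trans (Nat.le_of_dvd (by omega) (B.part_dvd K n _ hn))
    have h4 : (rd K n {Fin.last K} : ℝ) ≤ (n : ℝ) ^ (1 / ((K : ℝ) + 1)) := by
      have h5 : (rd K n {Fin.last K} : ℝ) ^ (K + 1) ≤ (n : ℝ) := by exact_mod_cast h3
      have h6 : ((rd K n {Fin.last K} : ℝ) ^ (K + 1)) ^ (1 / ((K : ℝ) + 1)) =
          (rd K n {Fin.last K} : ℝ) := by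
        have h7 := Real.pow_rpow_inv_natCast (x := (rd K n {Fin.last K} : ℝ)) (Nat.cast_nonneg _)
          (Nat.succ_ne_zero K)
        rw [one_div]
        push_cast at h7
        exact h7
      rw [← h6]
      exact Real.rpow_le_rpow (by positivity) h5 (by positivity)
    have h8 : (rad n : ℝ) ≤ (rd K n {Fin.last K} : ℝ) * (rd K n {i} : ℝ) ^ K := by
      rw [h1]
      push_cast
      refine mul_le_mul_of_nonneg_left ?_ (Nat.cast_nonneg _)
      exact_mod_cast h2
    rw [Real.rpow_natCast]
    exact h8.trans (mul_le_mul_of_nonneg_right h4 (by positivity))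

end Pool.Agent.NH16.AS
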