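import Pool.Agent.NH16.AS.Stm

/-!
# J4: the number of `y ≤ Y` with `A y ^ i + e` a square
-/

set_option autoImplicit false

namespace Pool.Agent.NH16.AS

open Finset Pool.Agent.H785R2.ABC

namespace Sq

theorem mod_of_dvd {M p I i : ℕ} (hM : M = 4 * I.factorial) (hp : M ∣ p + 1) (hp2 : 2 ≤ p)
    (hi : 1 ≤ i) (hI : i ≤ I) : p % 4 = 3 ∧ Nat.gcd i (p - 1) ∣ 2 := by
  constructor
  · have h : 4 ∣ p + 1 := dvd_trans (by rw [hM]; exact Dvd.intro _ rfl) hp
    omega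
  · have h1 : i ∣ p + 1 := by
      refine dvd_trans ?_ hp
      rw [hM]
      exact dvd_mul_of_dvd_right (Nat.dvd_factorial hi hI) 4
    have h2 : Nat.gcd i (p - 1) ∣ p + 1 := (Nat.gcd_dvd_left i (p - 1)).trans h1
    have h3 : Nat.gcd i (p - 1) ∣ p - 1 := Nat.gcd_dvd_right i (p - 1)
    have h4 := Nat.dvd_sub h2 h3
    have h5 : p + 1 - (p - 1) = 2 := by omega
    rwa [h5] at h4

theorem image_card (h1 : Classes) {p : ℕ} (hp : p.Prime) (h4 : p % 4 = 3) {i : ℕ} (hi : 1 ≤ i)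
    (hg : Nat.gcd i (p - 1) ∣ 2) {A e : ℤ} (hA : ¬ p ∣ A.natAbs * e.natAbs) (Y : ℕ) :
    2 * ((((Icc 1 Y).filter (fun y : ℕ => IsSquare (A * (y : ℤ) ^ i + e))).image
      (fun n => n % p)).card) ≤ p + 3 := by
  classical
  have : Fact p.Prime := ⟨hp⟩
  have hA0 : (A : ZMod p) ≠ 0 := by
    intro h
    rw [ZMod.intCast_zmod_eq_zero_iff_dvd] at h
    exact hA (dvd_mul_of_dvd_left (Int.natCast_dvd.1 h) _)
  have he0 : (e : ZMod p) ≠ 0 := by
    intro h
    rw [ZMod.intCast_zmod_eq_zero_iff_dvd] at h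
    exact hA (dvd_mul_of_dvd_right (Int.natCast_dvd.1 h) _)
  refine le_trans ?_ (h1 p h4 i hi hg (A : ZMod p) (e : ZMod p) hA0 he0)
  refine Nat.mul_le_mul_left 2 ?_
  set S := (Icc 1 Y).filter (fun y : ℕ => IsSquare (A * (y : ℤ) ^ i + e)) with hS
  have h2 : S.image (fun n => n % p) =
      (S.image (fun n : ℕ => (n : ZMod p))).image (fun z : ZMod p => z.val) := by
    rw [Finset.image_image]
    refine Finset.image_congr fun n _ => ?_
    show n % p = ((n : ℕ) : ZMod p).val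
    rw [ZMod.val_natCast]
  rw [h2]
  refine le_trans Finset.card_image_le ?_
  rw [← Set.ncard_coe_finset]
  refine Set.ncard_le_ncard ?_ (Set.toFinite _)
  intro z hz
  rw [Finset.coe_image] at hz
  obtain ⟨n, hn, rfl⟩ := hz
  have h3 : IsSquare (A * (n : ℤ) ^ i + e) := (Finset.mem_filter.1 hn).2
  have h5 := h3.map (Int.castRingHom (ZMod p))
  simpa using h5

end Sq

open Sq in
theorem sqCount (h1 : Classes) (h2 : Sieve) (h3 : PrimesM) : SqCount := by
  classical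
  intro I B ε hB hε
  obtain ⟨M, hM⟩ : ∃ M, M = 4 * I.factorial := ⟨_, rfl⟩
  have hM1 : 1 ≤ M := by
    rw [hM]
    have := Nat.factorial_pos I
    omega
  obtain ⟨ε', hε'⟩ : ∃ ε', ε' = min (1 / 2) (ε / B) := ⟨_, rfl⟩
  have hε0 : 0 < ε' := by
    rw [hε']
    exact lt_min (by norm_num) (by positivity)
  have hε2 : ε' ≤ 1 / 2 := by
    rw [hε']
    exact min_le_left _ _
  have hε3 : B * ε' ≤ ε := by
    have : ε' ≤ ε / B := by
      rw [hε']
      exact min_le_right _ _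
    calc B * ε' ≤ B * (ε / B) := mul_le_mul_of_nonneg_left this hB.le
      _ = ε := by field_simp
  obtain ⟨c, hc, Q₀, hQ⟩ := h3 M hM1 ε' hε0
  obtain ⟨L, hL⟩ : ∃ L, L = 16 * B / (c * ε) := ⟨_, rfl⟩
  have hL0 : 0 < L := by
    rw [hL]
    positivity
  obtain ⟨D₀, hD₀⟩ : ∃ D₀ : ℝ, D₀ = 2 * L ^ 2 + 2 * Q₀ + 4 := ⟨_, rfl⟩
  have hD4 : 4 ≤ D₀ := by
    rw [hD₀]
    have : (0 : ℝ) ≤ Q₀ := by positivity
    nlinarith [sq_nonneg L]
  have hDQ : (Q₀ : ℝ) ≤ D₀ / 2 := by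
    rw [hD₀]
    nlinarith [sq_nonneg L]
  have hDL : L ^ 2 ≤ D₀ / 2 := by
    rw [hD₀]
    have : (0 : ℝ) ≤ Q₀ := by positivity
    linarith
  refine ⟨D₀ + 120 / c, by positivity, ?_⟩
  intro N hN i hi hiI A e hA he hAN heN Y hY hYN
  have hN1 : (1 : ℝ) ≤ N := by exact_mod_cast hN
  have hN0 : (0 : ℝ) < N := by linarith
  have hNε : 1 ≤ (N : ℝ) ^ ε := Real.one_le_rpow hN1 hε.le
  obtain ⟨R, hR⟩ : ∃ R, R = Real.sqrt Y := ⟨_, rfl⟩
  have hY1 : (1 : ℝ) ≤ Y := by exact_mod_cast hY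
  have hR2 : R * R = Y := by
    rw [hR]
    exact Real.mul_self_sqrt (by linarith)
  have hR1 : 1 ≤ R := by
    rw [hR]
    exact Real.one_le_sqrt.2 hY1
  have hR0 : 0 < R := by linarith
  rw [← hR]
  set S := (Icc 1 Y).filter (fun y : ℕ => IsSquare (A * (y : ℤ) ^ i + e)) with hS
  have hSY : (S.card : ℝ) ≤ Y := by
    have : S.card ≤ (Icc 1 Y).card := Finset.card_filter_le _ _
    rw [Nat.card_Icc, Nat.add_sub_cancel] at this
    exact_mod_cast this
  have hcc : (0 : ℝ) < 120 / c := by positivity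
  rcases le_or_gt R (D₀ * (N : ℝ) ^ ε) with hsmall | hbig
  · calc (S.card : ℝ) ≤ Y := hSY
      _ = R * R := hR2.symm
      _ ≤ (D₀ * (N : ℝ) ^ ε) * R := mul_le_mul_of_nonneg_right hsmall hR0.le
      _ ≤ (D₀ + 120 / c) * (N : ℝ) ^ ε * R := by
        refine mul_le_mul_of_nonneg_right ?_ hR0.le
        refine mul_le_mul_of_nonneg_right ?_ (by linarith)
        linarith
  · have hRD : D₀ ≤ R := by
      have : D₀ * 1 ≤ D₀ * (N : ℝ) ^ ε := mul_le_mul_of_nonneg_left hNε (by linarith)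
      linarith
    obtain ⟨Q, hQdef⟩ : ∃ Q, Q = Nat.sqrt Y := ⟨_, rfl⟩
    have hQR : (Q : ℝ) ≤ R := by
      rw [hQdef, hR]
      exact Real.nat_sqrt_le_real_sqrt
    have hRQ : R ≤ Q + 1 := by
      rw [hQdef, hR]
      exact Real.real_sqrt_le_nat_sqrt_succ
    have hQ2 : R / 2 ≤ Q := by linarith
    have hQ0 : (0 : ℝ) < Q := by linarith
    have hQQ : Q₀ ≤ Q := by
      have : (Q₀ : ℝ) ≤ Q := by linarith
      exact_mod_cast this
    have hQ1 : (1 : ℝ) ≤ Q := by linarith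
    -- the modulus
    obtain ⟨m, hm⟩ : ∃ m, m = A.natAbs * e.natAbs := ⟨_, rfl⟩
    have hm1 : 1 ≤ m := by
      rw [hm]
      exact Nat.one_le_iff_ne_zero.2 (mul_ne_zero (Int.natAbs_ne_zero.2 hA)
        (Int.natAbs_ne_zero.2 he))
    have hmR : (m : ℝ) ≤ (N : ℝ) ^ (2 * B) := by
      rw [hm]
      push_cast
      rw [Nat.cast_natAbs, Nat.cast_natAbs]
      push_cast
      have h5 : (N : ℝ) ^ (2 * B) = (N : ℝ) ^ B * (N : ℝ) ^ B := by
        rw [← Real.rpow_add hN0]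
        congr 1
        ring
      rw [h5]
      exact mul_le_mul hAN heN (abs_nonneg _) (by positivity)
    have hm0 : (0 : ℝ) < m := by exact_mod_cast hm1
    have hlogm : Real.log m ≤ 2 * B * Real.log N := by
      rw [← Real.log_rpow hN0]
      exact Real.log_le_log hm0 hmR
    have hlogN : Real.log N ≤ (N : ℝ) ^ (ε / 2) / (ε / 2) :=
      Real.log_le_rpow_div hN0.le (by positivity)
    have hlog2 : (1 : ℝ) / 2 ≤ Real.log 2 := by
      have := Real.log_two_gt_d9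
      linarith
    have hpow : L * (N : ℝ) ^ (ε / 2) ≤ (Q : ℝ) ^ (1 - ε') := by
      have h5 : (Q : ℝ) ^ (1 / 2 : ℝ) ≤ (Q : ℝ) ^ (1 - ε') :=
        Real.rpow_le_rpow_of_exponent_le hQ1 (by linarith)
      refine le_trans ?_ h5
      rw [← Real.sqrt_eq_rpow]
      refine Real.le_sqrt_of_sq_le ?_
      have h6 : ((N : ℝ) ^ (ε / 2)) ^ 2 = (N : ℝ) ^ ε := by
        rw [← Real.rpow_natCast, ← Real.rpow_mul hN0.le]
        congr 1
        push_cast
        ring
      rw [mul_pow, h6]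
      calc L ^ 2 * (N : ℝ) ^ ε ≤ D₀ / 2 * (N : ℝ) ^ ε :=
            mul_le_mul_of_nonneg_right hDL (by linarith)
        _ = (D₀ * (N : ℝ) ^ ε) / 2 := by ring
        _ ≤ Q := by linarith
    have hlog : Real.log m / Real.log 2 ≤ c / 2 * (Q : ℝ) ^ (1 - ε') := by
      have hlN : 0 ≤ Real.log N := Real.log_nonneg hN1
      calc Real.log m / Real.log 2 ≤ (2 * B * Real.log N) / Real.log 2 :=
            div_le_div_of_nonneg_right hlogm (by linarith)
        _ ≤ (2 * B * Real.log N) / (1 / 2) :=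
            div_le_div_of_nonneg_left (by positivity) (by norm_num) hlog2
        _ = 4 * B * Real.log N := by ring
        _ ≤ 4 * B * ((N : ℝ) ^ (ε / 2) / (ε / 2)) :=
            mul_le_mul_of_nonneg_left hlogN (by positivity)
        _ = c / 2 * (L * (N : ℝ) ^ (ε / 2)) := by
            rw [hL]
            field_simp
            ring
        _ ≤ c / 2 * (Q : ℝ) ^ (1 - ε') := mul_le_mul_of_nonneg_left hpow (by positivity)
    set P := (Icc 1 Q).filter (fun p => p.Prime ∧ 7 ≤ p ∧ M ∣ p + 1 ∧ ¬ p ∣ m) with hP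
    have hPcard : c / 2 * (Q : ℝ) ^ (1 - ε') ≤ P.card := by
      have h5 := hQ Q hQQ m hm1
      have h6 : c * (Q : ℝ) ^ (1 - ε') - c / 2 * (Q : ℝ) ^ (1 - ε') =
        c / 2 * (Q : ℝ) ^ (1 - ε') := by ring
      calc c / 2 * (Q : ℝ) ^ (1 - ε') ≤ c * (Q : ℝ) ^ (1 - ε') - Real.log m / Real.log 2 := by
            linarith
        _ ≤ P.card := h5
    have hsieve := h2 Y Q S P (Finset.filter_subset _ _) (by
      intro l hl
      rw [hP, Finset.mem_filter, Finset.mem_Icc] at hl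
      exact ⟨hl.2.1, hl.2.2.1, hl.1.2⟩) (by
      intro l hl
      rw [hP, Finset.mem_filter, Finset.mem_Icc] at hl
      obtain ⟨_, hlp, hl7, hlM, hlm⟩ := hl
      obtain ⟨h5, h6⟩ := mod_of_dvd hM hlM (by omega) hi hiI
      rw [hm] at hlm
      exact image_card h1 hlp h5 hi h6 hlm Y)
    have hQsq : (Q : ℝ) ^ 2 ≤ Y := by
      rw [← hR2, sq]
      exact mul_le_mul hQR hQR hQ0.le hR0.le
    have h7 : (S.card : ℝ) * (c / 2 * (Q : ℝ) ^ (1 - ε')) ≤ 30 * Y := by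
      calc (S.card : ℝ) * (c / 2 * (Q : ℝ) ^ (1 - ε')) ≤ S.card * P.card :=
            mul_le_mul_of_nonneg_left hPcard (by positivity)
        _ ≤ 15 * (Y + (Q : ℝ) ^ 2) := hsieve
        _ ≤ 30 * Y := by linarith
    have h8 : (Q : ℝ) ^ ε' ≤ (N : ℝ) ^ ε := by
      have h9 : (Q : ℝ) ≤ (N : ℝ) ^ B := by
        refine le_trans ?_ hYN
        nlinarith
      calc (Q : ℝ) ^ ε' ≤ ((N : ℝ) ^ B) ^ ε' := Real.rpow_le_rpow hQ0.le h9 hε0.le
        _ = (N : ℝ) ^ (B * ε') := by rw [← Real.rpow_mul hN0.le]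
        _ ≤ (N : ℝ) ^ ε := Real.rpow_le_rpow_of_exponent_le hN1 hε3
    have h9 : (Q : ℝ) ^ (1 - ε') * (Q : ℝ) ^ ε' = Q := by
      rw [← Real.rpow_add hQ0]
      norm_num
    have h10 : 0 < (Q : ℝ) ^ ε' := by positivity
    have h11 : (S.card : ℝ) * (c / 2 * Q) ≤ 30 * Y * (N : ℝ) ^ ε := by
      calc (S.card : ℝ) * (c / 2 * Q) =
            (S.card : ℝ) * (c / 2 * (Q : ℝ) ^ (1 - ε')) * (Q : ℝ) ^ ε' := by
              rw [mul_assoc, mul_assoc, h9]
        _ ≤ 30 * Y * (Q : ℝ) ^ ε' := mul_le_mul_of_nonneg_right h7 h10.le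
        _ ≤ 30 * Y * (N : ℝ) ^ ε := mul_le_mul_of_nonneg_left h8 (by positivity)
    have h12 : (S.card : ℝ) * (c / 4) * R ≤ 30 * (N : ℝ) ^ ε * R * R := by
      calc (S.card : ℝ) * (c / 4) * R = (S.card : ℝ) * (c / 2 * (R / 2)) := by ring
        _ ≤ (S.card : ℝ) * (c / 2 * Q) := by
            refine mul_le_mul_of_nonneg_left ?_ (by positivity)
            exact mul_le_mul_of_nonneg_left hQ2 (by positivity)
        _ ≤ 30 * Y * (N : ℝ) ^ ε := h11
        _ = 30 * (N : ℝ) ^ ε * R * R := by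
            rw [← hR2]
            ring
    have h13 := le_of_mul_le_mul_right h12 hR0
    have h14 : (S.card : ℝ) ≤ 120 / c * (N : ℝ) ^ ε * R := by
      have h15 : (S.card : ℝ) = (S.card : ℝ) * (c / 4) * (4 / c) := by field_simp
      rw [h15]
      calc (S.card : ℝ) * (c / 4) * (4 / c) ≤ 30 * (N : ℝ) ^ ε * R * (4 / c) :=
            mul_le_mul_of_nonneg_right h13 (by positivity)
        _ = 120 / c * (N : ℝ) ^ ε * R := by ring
    refine h14.trans ?_
    refine mul_le_mul_of_nonneg_right ?_ hR0.le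
    refine mul_le_mul_of_nonneg_right ?_ (by linarith)
    linarith

end Pool.Agent.NH16.AS
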