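import Pool.Agent.NH16.AS.Fin

set_option autoImplicit false

namespace Pool.Agent.NH16.AS

open Finset Pool.Agent.H785R2.ABC

/-- powerful (squarefull) numbers -/
def Powerful (m : ℕ) : Prop := 1 ≤ m ∧ ∀ p : ℕ, p.Prime → p ∣ m → p ^ 2 ∣ m

/-- every abc-triple with the member `m` and `c ≤ m ^ (1 + δ)` has `rad (abc) > c ^ (1 + δ)` -/
def GoodM (δ : ℝ) (m : ℕ) : Prop :=
  ∀ a b : ℕ, 0 < a → 0 < b → Nat.Coprime a b → (a = m ∨ b = m ∨ a + b = m) →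
    ((a + b : ℕ) : ℝ) ≤ (m : ℝ) ^ (1 + δ) →
      ((a + b : ℕ) : ℝ) ^ (1 + δ) < (rad (a * b * (a + b)) : ℝ)

open Classical in
/-- conclusion of `main` -/
def Squares : Prop := ∃ N₀ : ℕ, ∀ N : ℕ, N₀ ≤ N →
    (((Icc 1 N).filter (fun n : ℕ => ¬ Good (1 / 400) n)).card : ℝ) ≤ (N : ℝ) ^ (1 - 1 / 400 : ℝ)

open Classical in
/-- the conclusion for powerful numbers -/
def PowerfulNumbers : Prop := ∃ X₀ : ℕ, ∀ X : ℕ, X₀ ≤ X →
    (((Icc 1 X).filter (fun m : ℕ => Powerful m ∧ ¬ GoodM (1 / 10000) m)).card : ℝ) ≤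
      (X : ℝ) ^ (1 / 2 - 1 / 10000 : ℝ)

end Pool.Agent.NH16.AS
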