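import Pool.Agent.NH16.AS.Stm
import Pool.Agent.TH863.LS

/-!
The large sieve for sets which occupy at most `(l + 3) / 2` residue classes modulo the primes `l ≥ 7`.
-/

set_option autoImplicit false

namespace Pool.Agent.NH16.AS

open Finset Pool.Agent.Helper112 Pool.Agent.TH863

/-- lower bound for the contribution of the prime `l` -/
lemma prime_part {l : ℕ} (hl : l.Prime) (hl7 : 7 ≤ l) (A : Finset ℕ)
    (hA : 2 * ((A.image (fun n => n % l)).card) ≤ l + 3) :
    (2 / 5 : ℝ) * (A.card : ℝ) ^ 2 ≤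
      ∑ a ∈ (range l).filter (fun a => a.Coprime l), ‖∑ n ∈ A, ee ((n : ℝ) * a / l)‖ ^ 2 := by
  classical
  have hl0 : 0 < l := hl.pos
  have hsplit : ∑ a ∈ range l, ‖∑ n ∈ A, ee ((n : ℝ) * a / l)‖ ^ 2 =
      (A.card : ℝ) ^ 2 +
      ∑ a ∈ (range l).filter (fun a => a.Coprime l), ‖∑ n ∈ A, ee ((n : ℝ) * a / l)‖ ^ 2 := by
    have h1 : range l = insert 0 ((range l).filter (fun a => a.Coprime l)) := by
      ext a
      simp only [Finset.mem_range, Finset.mem_insert, Finset.mem_filter]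
      constructor
      · intro h
        rcases Nat.eq_zero_or_pos a with h0 | h0
        · exact Or.inl h0
        · exact Or.inr ⟨h, Nat.Coprime.symm ((Nat.Prime.coprime_iff_not_dvd hl).2
          (fun hd => absurd (Nat.le_of_dvd h0 hd) (by omega)))⟩
      · rintro (h | h)
        · omega
        · exact h.1
    have h0 : (0 : ℕ) ∉ (range l).filter (fun a => a.Coprime l) := by
      simp only [Finset.mem_filter, not_and]
      intro _ h
      rw [Nat.coprime_zero_left] at h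
      omega
    conv_lhs => rw [h1]
    rw [Finset.sum_insert h0]
    congr 1
    simp [ls_ee_zero]
  rw [parseval l hl0 A] at hsplit
  -- Cauchy-Schwarz
  set I := A.image (fun n => n % l) with hI
  have hIs : I ⊆ range l := by
    intro h hh
    obtain ⟨n, _, rfl⟩ := Finset.mem_image.1 hh
    exact Finset.mem_range.2 (Nat.mod_lt _ hl0)
  have hsum : (A.card : ℝ) = ∑ h ∈ I, ((A.filter (fun n => n % l = h)).card : ℝ) := by
    have := Finset.card_eq_sum_card_image (fun n => n % l) A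
    rw [this]
    push_cast
    rfl
  have hCS : (A.card : ℝ) ^ 2 ≤ I.card * ∑ h ∈ I, (((A.filter (fun n => n % l = h)).card : ℝ)) ^ 2 := by
    rw [hsum]
    exact sq_sum_le_card_mul_sum_sq
  have hmono : ∑ h ∈ I, (((A.filter (fun n => n % l = h)).card : ℝ)) ^ 2 ≤
      ∑ h ∈ range l, (((A.filter (fun n => n % l = h)).card : ℝ)) ^ 2 :=
    Finset.sum_le_sum_of_subset_of_nonneg hIs (fun _ _ _ => by positivity)
  obtain ⟨T1, hT1⟩ : ∃ t : ℝ, t = ∑ h ∈ I, (((A.filter (fun n => n % l = h)).card : ℝ)) ^ 2 :=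
    ⟨_, rfl⟩
  obtain ⟨T2, hT2⟩ : ∃ t : ℝ, t = ∑ h ∈ range l,
    (((A.filter (fun n => n % l = h)).card : ℝ)) ^ 2 := ⟨_, rfl⟩
  have hT0 : 0 ≤ T1 := by
    rw [hT1]
    exact Finset.sum_nonneg fun _ _ => sq_nonneg _
  rw [← hT2] at hsplit
  rw [← hT1] at hCS
  rw [← hT1, ← hT2] at hmono
  have hIc : (I.card : ℝ) ≤ ((l : ℝ) + 3) / 2 := by
    have : (2 * I.card : ℝ) ≤ l + 3 := by exact_mod_cast hA
    linarith
  have hlR : (7 : ℝ) ≤ l := by exact_mod_cast hl7
  have h1 : (A.card : ℝ) ^ 2 ≤ ((l : ℝ) + 3) / 2 * T2 :=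
    hCS.trans (mul_le_mul hIc hmono hT0 (by linarith))
  have h2 : (7 / 5 : ℝ) * (A.card : ℝ) ^ 2 ≤ l * T2 := by
    have h3 : (7 / 5 : ℝ) * (((l : ℝ) + 3) / 2 * T2) ≤ l * T2 := by
      have h4 : (7 / 5 : ℝ) * (((l : ℝ) + 3) / 2) ≤ l := by linarith
      have h5 := mul_le_mul_of_nonneg_right h4 (hT0.trans hmono)
      linarith
    linarith
  linarith

/-- The large sieve for a set which occupies at most `(l + 3) / 2` of the residue classes modulo the
primes `l` of `P`. -/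
theorem sieve : Sieve := by
  classical
  intro N F A P hA hP hI
  rcases Finset.eq_empty_or_nonempty A with rfl | hne
  · simp only [Finset.card_empty, Nat.cast_zero, zero_mul]
    positivity
  have hApos : (0 : ℝ) < A.card := by exact_mod_cast hne.card_pos
  have hLS := additive_large_sieve N F (fun n => if n ∈ A then 1 else 0)
  have e1 : ∀ f a : ℕ, ∑ n ∈ Icc 1 N, (if n ∈ A then (1 : ℂ) else 0) * ee ((n : ℝ) * a / f) =
      ∑ n ∈ A, ee ((n : ℝ) * a / f) := by
    intro f a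
    simp only [ite_mul, one_mul, zero_mul]
    rw [← Finset.sum_filter]
    congr 1
    ext n
    simp only [Finset.mem_filter]
    exact ⟨fun h => h.2, fun h => ⟨hA h, h⟩⟩
  have e2 : ∑ n ∈ Icc 1 N, ‖(if n ∈ A then (1 : ℂ) else 0)‖ ^ 2 = A.card := by
    have : ∀ n ∈ Icc 1 N, ‖(if n ∈ A then (1 : ℂ) else 0)‖ ^ 2 = if n ∈ A then (1 : ℝ) else 0 := by
      intro n _
      split_ifs <;> simp
    rw [Finset.sum_congr rfl this, ← Finset.sum_filter, Finset.sum_const, nsmul_eq_mul, mul_one]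
    congr 2
    ext n
    simp only [Finset.mem_filter]
    exact ⟨fun h => h.2, fun h => ⟨hA h, h⟩⟩
  rw [e2] at hLS
  simp only [e1] at hLS
  have h1 : ∑ l ∈ P, (2 / 5 : ℝ) * (A.card : ℝ) ^ 2 ≤
      ∑ f ∈ Icc 1 F, ∑ a ∈ (range f).filter (fun a => a.Coprime f),
        ‖∑ n ∈ A, ee ((n : ℝ) * a / f)‖ ^ 2 := by
    calc ∑ l ∈ P, (2 / 5 : ℝ) * (A.card : ℝ) ^ 2 ≤
        ∑ l ∈ P, ∑ a ∈ (range l).filter (fun a => a.Coprime l),
          ‖∑ n ∈ A, ee ((n : ℝ) * a / l)‖ ^ 2 :=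
          Finset.sum_le_sum fun l hl => prime_part (hP l hl).1 (hP l hl).2.1 A (hI l hl)
      _ ≤ _ := by
          refine Finset.sum_le_sum_of_subset_of_nonneg ?_ (fun _ _ _ =>
            Finset.sum_nonneg fun _ _ => by positivity)
          intro l hl
          exact Finset.mem_Icc.2 ⟨(hP l hl).1.one_le, (hP l hl).2.2⟩
  rw [Finset.sum_const, nsmul_eq_mul] at h1
  have h2 : (A.card : ℝ) * ((A.card : ℝ) * P.card) ≤ (A.card : ℝ) * (15 * (N + (F : ℝ) ^ 2)) := by
    nlinarith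
  exact le_of_mul_le_mul_left h2 hApos

end Pool.Agent.NH16.AS
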