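import Pool.Agent.NH16.AS.Cl
import Pool.Agent.NH16.AS.Sv
import Pool.Agent.NH16.AS.Pm
import Pool.Agent.NH16.AS.Sq
import Pool.Agent.NH16.AS.Sp
import Pool.Agent.NH16.AS.Pr
import Pool.Agent.NH16.AS.Ci
import Pool.Agent.NH16.AS.Cnt
import Pool.Agent.NH16.AS.Fin
import Pool.Agent.NH16.AS.Stm2
import Pool.Agent.H785R2.ABC.A12
import Pool.Agent.H785R2.ABC.A345

set_option autoImplicit false

namespace Pool.Agent.NH16.AS

open Finset Pool.Agent.H785R2.ABC

theorem squares : Squares :=
  main (count split pairs (countI (sqCount classes sieve primesM) pairs)) (stmtA4_of (stmtA3_of stmtA2))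

end Pool.Agent.NH16.AS
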