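import Pool.Agent.NH16.AS.Stm

/-!
At most `(p + 3) / 2` residues `y` make `A y ^ i + e` a square modulo `p`.
-/

set_option autoImplicit false

namespace Pool.Agent.NH16.AS

open Finset

section Cl

variable {p : ℕ} [hp : Fact p.Prime]

theorem cl_sq_card (f : ZMod p → ZMod p) :
    2 * (((univ.filter (fun z : ZMod p => IsSquare (f z))).card : ℕ) : ℤ) =
      p + ∑ z, quadraticChar (ZMod p) (f z) +
        (((univ.filter (fun z : ZMod p => f z = 0)).card : ℕ) : ℤ) := by
  have h1 : ∀ w : ZMod p, 2 * (if IsSquare w then (1 : ℤ) else 0) =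
      1 + quadraticChar (ZMod p) w + (if w = 0 then (1 : ℤ) else 0) := by
    intro w
    by_cases hw : w = 0
    · subst hw
      simp
    · by_cases hs : IsSquare w
      · have h2 := (quadraticChar_one_iff_isSquare hw).2 hs
        rw [h2]
        simp [hs, hw]
      · have h2 := (quadraticChar_neg_one_iff_not_isSquare (a := w)).2 hs
        rw [h2]
        simp [hs, hw]
  have h3 : ((univ.filter (fun z : ZMod p => IsSquare (f z))).card : ℤ) =
      ∑ z : ZMod p, (if IsSquare (f z) then (1 : ℤ) else 0) := by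
    rw [Finset.sum_boole]
  have h4 : ((univ.filter (fun z : ZMod p => f z = 0)).card : ℤ) =
      ∑ z : ZMod p, (if f z = 0 then (1 : ℤ) else 0) := by
    rw [Finset.sum_boole]
  rw [h3, h4, Finset.mul_sum, Finset.sum_congr rfl (fun z _ => h1 (f z)), Finset.sum_add_distrib,
    Finset.sum_add_distrib]
  simp [ZMod.card]

theorem cl_lin_bij (A e : ZMod p) (hA : A ≠ 0) : Function.Bijective (fun z : ZMod p => A * z + e) := by
  refine Finite.injective_iff_bijective.1 ?_
  intro x y h
  have h1 : A * x = A * y := by simpa using h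
  exact mul_left_cancel₀ hA h1

theorem cl_lin_sum (hp2 : p ≠ 2) (A e : ZMod p) (hA : A ≠ 0) :
    ∑ z, quadraticChar (ZMod p) (A * z + e) = 0 := by
  have hF : ringChar (ZMod p) ≠ 2 := by rw [ZMod.ringChar_zmod_n]; exact hp2
  have h := (cl_lin_bij A e hA).sum_comp (fun z => quadraticChar (ZMod p) z)
  rw [h]
  exact quadraticChar_sum_zero hF

theorem cl_J (hp2 : p ≠ 2) (δ : ZMod p) (h : δ ≠ 0) :
    ∑ a : ZMod p, quadraticChar (ZMod p) a * quadraticChar (ZMod p) (a + δ) = -1 := by
  have hF : ringChar (ZMod p) ≠ 2 := by rw [ZMod.ringChar_zmod_n]; exact hp2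
  have hc : -δ ≠ 0 := neg_ne_zero.mpr h
  have h3 : ∑ y : ZMod p, quadraticChar (ZMod p) y * quadraticChar (ZMod p) (y - -δ) = -1 := by
    rw [← Equiv.sum_comp (Equiv.mulLeft₀ (-δ) hc)]
    have hneg : quadraticChar (ZMod p) (-1) * quadraticChar (ZMod p) (-1) = 1 := by
      rw [← map_mul]; simp
    have h4 : ∀ z : ZMod p, quadraticChar (ZMod p) (Equiv.mulLeft₀ (-δ) hc z) *
        quadraticChar (ZMod p) (Equiv.mulLeft₀ (-δ) hc z - -δ)
        = quadraticChar (ZMod p) (-1) * (quadraticChar (ZMod p) z * quadraticChar (ZMod p) (1 - z)) := by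
      intro z
      simp only [Equiv.mulLeft₀_apply]
      have h5 : quadraticChar (ZMod p) (-δ) * quadraticChar (ZMod p) (-δ) = 1 := by
        rw [← sq]; exact quadraticChar_sq_one hc
      have h6 : -δ * z - -δ = -δ * (-1 * (1 - z)) := by ring
      rw [h6, map_mul, map_mul, map_mul]
      linear_combination (quadraticChar (ZMod p) z * quadraticChar (ZMod p) (-1) *
        quadraticChar (ZMod p) (1 - z)) * h5
    simp only [h4]
    rw [← Finset.mul_sum]
    have h7 := jacobiSum_nontrivial_inv (quadraticChar_ne_one hF)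
    rw [(quadraticChar_isQuadratic (ZMod p)).inv] at h7
    unfold jacobiSum at h7
    rw [h7]
    linear_combination (-1) * hneg
  simp only [sub_neg_eq_add] at h3
  exact h3

theorem cl_sq_sum (hp2 : p ≠ 2) (g : ZMod p → ℤ) :
    ∑ z : ZMod p, g (z ^ 2) = ∑ t : ZMod p, (1 + quadraticChar (ZMod p) t) * g t := by
  classical
  have hF : ringChar (ZMod p) ≠ 2 := by rw [ZMod.ringChar_zmod_n]; exact hp2
  rw [← Finset.sum_fiberwise_of_maps_to (s := (univ : Finset (ZMod p))) (t := univ)
    (g := fun z : ZMod p => z ^ 2) (fun _ _ => Finset.mem_univ _)]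
  refine Finset.sum_congr rfl fun t _ => ?_
  rw [Finset.sum_congr rfl (g := fun _ => g t)
    (fun z hz => by rw [(Finset.mem_filter.1 hz).2])]
  rw [Finset.sum_const, nsmul_eq_mul]
  congr 1
  have h := quadraticChar_card_sqrts hF t
  have h2 : ({x : ZMod p | x ^ 2 = t}.toFinset) = univ.filter (fun z : ZMod p => z ^ 2 = t) := by
    ext z
    simp
  rw [h2] at h
  rw [h]
  ring

theorem cl_quad_sum (hp2 : p ≠ 2) (A e : ZMod p) (hA : A ≠ 0) (he : e ≠ 0) :
    ∑ z, quadraticChar (ZMod p) (A * z ^ 2 + e) ≤ 1 := by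
  have h1 := cl_sq_sum hp2 (fun t => quadraticChar (ZMod p) (A * t + e))
  rw [h1]
  have h2 : ∀ t : ZMod p, (1 + quadraticChar (ZMod p) t) * quadraticChar (ZMod p) (A * t + e) =
      quadraticChar (ZMod p) (A * t + e) +
        quadraticChar (ZMod p) A * (quadraticChar (ZMod p) t * quadraticChar (ZMod p) (t + e / A)) := by
    intro t
    have h3 : A * t + e = A * (t + e / A) := by field_simp
    have h4 : quadraticChar (ZMod p) (A * t + e) =
        quadraticChar (ZMod p) A * quadraticChar (ZMod p) (t + e / A) := by rw [h3, map_mul]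
    linear_combination (quadraticChar (ZMod p) t) * h4
  rw [Finset.sum_congr rfl (fun t _ => h2 t), Finset.sum_add_distrib, ← Finset.mul_sum,
    cl_lin_sum hp2 A e hA, cl_J hp2 (e / A) (div_ne_zero he hA)]
  rcases quadraticChar_dichotomy hA with h | h <;> rw [h] <;> norm_num

theorem cl_root_card (A e : ZMod p) (hA : A ≠ 0) :
    (univ.filter (fun z : ZMod p => A * z ^ 2 + e = 0)).card ≤ 2 := by
  classical
  by_cases h0 : ∃ z : ZMod p, A * z ^ 2 + e = 0
  · obtain ⟨z, hz⟩ := h0
    have h1 : univ.filter (fun z : ZMod p => A * z ^ 2 + e = 0) ⊆ {z, -z} := by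
      intro w hw
      have hw' := (Finset.mem_filter.1 hw).2
      have h2 : A * ((w - z) * (w + z)) = 0 := by linear_combination hw' - hz
      rcases mul_eq_zero.1 h2 with h | h
      · exact absurd h hA
      · rcases mul_eq_zero.1 h with h | h
        · simp [sub_eq_zero.1 h]
        · simp [eq_neg_of_add_eq_zero_left h]
    exact (Finset.card_le_card h1).trans Finset.card_le_two
  · have h1 : univ.filter (fun z : ZMod p => A * z ^ 2 + e = 0) = ∅ := by
      apply Finset.filter_eq_empty_iff.2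
      intro z _ hz
      exact h0 ⟨z, hz⟩
    rw [h1]
    simp

theorem cl_pow_card (y : ZMod p) (k : ℕ) : y ^ (1 + (p - 1) * k) = y := by
  by_cases hy : y = 0
  · subst hy
    rw [zero_pow (by omega)]
  · rw [pow_add, pow_mul, ZMod.pow_card_sub_one_eq_one hy]
    simp

theorem cl_pow_inj (hp2 : p ≠ 2) {j : ℕ} (hj : Nat.Coprime j (p - 1)) :
    Function.Injective (fun y : ZMod p => y ^ j) := by
  have hp3 : 2 < p := lt_of_le_of_ne hp.out.two_le (Ne.symm hp2)
  obtain ⟨m, hm⟩ := Nat.exists_mul_mod_eq_one_of_coprime hj (by omega)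
  have h1 : ∀ y : ZMod p, (y ^ j) ^ m = y := by
    intro y
    have h2 : j * m = 1 + (p - 1) * (j * m / (p - 1)) := by
      have := Nat.mod_add_div (j * m) (p - 1)
      rw [hm.2] at this
      exact this.symm
    rw [← pow_mul, h2]
    exact cl_pow_card y _
  intro x y h
  have h3 : x ^ j = y ^ j := h
  rw [← h1 x, ← h1 y, h3]

theorem cl_count_le (hp2 : p ≠ 2) {j : ℕ} (hj : Nat.Coprime j (p - 1)) (f : ZMod p → ZMod p) :
    {y : ZMod p | IsSquare (f (y ^ j))}.ncard ≤
      (univ.filter (fun z : ZMod p => IsSquare (f z))).card := by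
  have h1 : {y : ZMod p | IsSquare (f (y ^ j))}.ncard ≤ {z : ZMod p | IsSquare (f z)}.ncard := by
    refine Set.ncard_le_ncard_of_injOn (fun y => y ^ j) ?_ ((cl_pow_inj hp2 hj).injOn) (Set.toFinite _)
    intro y hy
    exact hy
  refine h1.trans (le_of_eq ?_)
  rw [Set.ncard_eq_toFinset_card']
  congr 1
  ext z
  simp

end Cl

/-- J1 -/
theorem classes : Classes := by
  intro p hp hp4 i hi hgcd A e hA he
  have hp2 : p ≠ 2 := by rintro rfl; omega
  rcases Nat.even_or_odd i with hev | hodd
  · obtain ⟨j, hj⟩ := hev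
    obtain ⟨h, hh⟩ : ∃ h, p - 1 = 2 * h := ⟨(p - 1) / 2, by omega⟩
    have hhodd : h % 2 = 1 := by omega
    have hp1 : 2 ≤ p := hp.out.two_le
    have hcop : Nat.gcd j h = 1 := by
      have h1 : Nat.gcd i (p - 1) = 2 * Nat.gcd j h := by
        rw [hj, hh, ← two_mul, Nat.gcd_mul_left]
      rw [h1] at hgcd
      have h2 := Nat.dvd_of_mul_dvd_mul_left (k := 2) (by norm_num) (by simpa using hgcd : 2 * Nat.gcd j h ∣ 2 * 1)
      exact Nat.dvd_one.1 h2
    obtain ⟨j', hj'odd, hj'c, hj'p⟩ : ∃ j' : ℕ, j' % 2 = 1 ∧ Nat.Coprime j' h ∧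
        ∀ y : ZMod p, (y ^ j') ^ 2 = y ^ i := by
      by_cases hjo : j % 2 = 1
      · refine ⟨j, hjo, hcop, fun y => ?_⟩
        rw [← pow_mul, hj]
        congr 1
        ring
      · refine ⟨j + h, by omega, ?_, fun y => ?_⟩
        · have h9 : Nat.gcd (j + h) h = Nat.gcd j h := by simp
          exact h9.trans hcop
        · by_cases hy : y = 0
          · subst hy
            rw [zero_pow (by omega : j + h ≠ 0), zero_pow (by norm_num), zero_pow (by omega)]
          · have h3 : (j + h) * 2 = i + (p - 1) := by omega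
            rw [← pow_mul, h3, pow_add, ZMod.pow_card_sub_one_eq_one hy, mul_one]
    have hj'cop : Nat.Coprime j' (p - 1) := by
      rw [hh]
      refine Nat.Coprime.mul_right ?_ hj'c
      exact Nat.coprime_two_right.2 (Nat.odd_iff.2 hj'odd)
    have h4 := cl_count_le hp2 hj'cop (fun z => A * z ^ 2 + e)
    have h5 : {y : ZMod p | IsSquare (A * y ^ i + e)} = {y : ZMod p | IsSquare (A * (y ^ j') ^ 2 + e)} := by
      ext y
      simp only [Set.mem_ofPred_eq, hj'p]
    rw [h5]
    have h6 := cl_sq_card (fun z => A * z ^ 2 + e)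
    have h7 := cl_quad_sum hp2 A e hA he
    have h8 := cl_root_card A e hA
    have h9 : 2 * (((univ.filter (fun z : ZMod p => IsSquare (A * z ^ 2 + e))).card : ℕ) : ℤ) ≤ p + 3 := by
      have h8' : (((univ.filter (fun z : ZMod p => A * z ^ 2 + e = 0)).card : ℕ) : ℤ) ≤ 2 := by
        exact_mod_cast h8
      linarith
    have h10 : 2 * (univ.filter (fun z : ZMod p => IsSquare (A * z ^ 2 + e))).card ≤ p + 3 := by
      exact_mod_cast h9
    omega
  · have hcop : Nat.Coprime i (p - 1) := by
      have h1 : Nat.gcd i (p - 1) ∣ i := Nat.gcd_dvd_left _ _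
      rcases (Nat.dvd_prime Nat.prime_two).1 hgcd with h | h
      · exact h
      · rw [h] at h1
        obtain ⟨k, hk⟩ := hodd
        omega
    have h4 := cl_count_le hp2 hcop (fun z => A * z + e)
    have h6 := cl_sq_card (fun z => A * z + e)
    have h7 := cl_lin_sum hp2 A e hA
    have h8 : (univ.filter (fun z : ZMod p => A * z + e = 0)).card ≤ 1 := by
      rw [Finset.card_le_one]
      intro x hx y hy
      have hx' := (Finset.mem_filter.1 hx).2
      have hy' := (Finset.mem_filter.1 hy).2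
      exact (cl_lin_bij A e hA).1 (hx'.trans hy'.symm)
    have h9 : 2 * (((univ.filter (fun z : ZMod p => IsSquare (A * z + e))).card : ℕ) : ℤ) ≤ p + 3 := by
      have h8' : (((univ.filter (fun z : ZMod p => A * z + e = 0)).card : ℕ) : ℤ) ≤ 1 := by
        exact_mod_cast h8
      linarith
    have h10 : 2 * (univ.filter (fun z : ZMod p => IsSquare (A * z + e))).card ≤ p + 3 := by
      exact_mod_cast h9
    omega

end Pool.Agent.NH16.AS
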