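import Pool.Agent.NH16.AS.Stm2

/-!
# From almost all squares to almost all powerful numbers
-/

set_option autoImplicit false

namespace Pool.Agent.NH16.AS

open Finset Pool.Agent.H785R2.ABC

namespace Pw

lemma form {m : ℕ} (h : Powerful m) : ∃ s n : ℕ, 1 ≤ s ∧ 1 ≤ n ∧ m = s ^ 3 * n ^ 2 := by
  obtain ⟨a, b, hab, ha⟩ := Nat.sq_mul_squarefree m
  have hm0 : m ≠ 0 := by have := h.1; omega
  have ha0 : a ≠ 0 := by
    rintro rfl
    simp at hab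
    omega
  have hdvd : a ∣ b := by
    rw [← Nat.prod_primeFactors_of_squarefree ha]
    refine Finset.prod_primes_dvd b (fun p hp => (Nat.prime_of_mem_primeFactors hp).prime) fun p hp => ?_
    have hp' := Nat.prime_of_mem_primeFactors hp
    have hpa := Nat.dvd_of_mem_primeFactors hp
    by_contra hpb
    have h1 : p ^ 2 ∣ m := h.2 p hp' (hab ▸ Dvd.dvd.mul_left hpa _)
    rw [← hab] at h1
    have hc : Nat.Coprime (p ^ 2) (b ^ 2) := Nat.Coprime.pow 2 2 ((Nat.Prime.coprime_iff_not_dvd hp').2 hpb)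
    have h2 : p ^ 2 ∣ a := hc.dvd_of_dvd_mul_left h1
    have h3 := ha p (by rwa [sq] at h2)
    exact hp'.one_lt.ne' (Nat.isUnit_iff.1 h3)
  obtain ⟨n, rfl⟩ := hdvd
  refine ⟨a, n, Nat.one_le_iff_ne_zero.2 ha0, ?_, ?_⟩
  · rw [Nat.one_le_iff_ne_zero]
    rintro rfl
    simp at hab
    omega
  · rw [← hab]
    ring

lemma ineqs {x s n : ℝ} (hx : 1 ≤ x) (hs : 1 ≤ s) (hn : 1 ≤ n) (hm : s ^ 3 * n ^ 2 ≤ x)
    (hY : x ^ (1 / 2 - 3 / 20000 : ℝ) < s * n) :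
    s ≤ x ^ (3 / 10000 : ℝ) ∧ s ^ 3 ≤ n ^ (19 / 10000 : ℝ) := by
  have hx0 : 0 < x := by linarith
  have h1 : s ≤ x ^ (3 / 10000 : ℝ) := by
    have h2 : x ^ (1 - 3 / 10000 : ℝ) ≤ (s * n) ^ 2 := by
      have h3 : x ^ (1 - 3 / 10000 : ℝ) = (x ^ (1 / 2 - 3 / 20000 : ℝ)) ^ 2 := by
        rw [← Real.rpow_natCast, ← Real.rpow_mul hx0.le]
        congr 1
        norm_num
      rw [h3]
      gcongr
    have h4 : s * x ^ (1 - 3 / 10000 : ℝ) ≤ x ^ (3 / 10000 : ℝ) * x ^ (1 - 3 / 10000 : ℝ) := by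
      rw [← Real.rpow_add hx0]
      have h5 : (3 / 10000 + (1 - 3 / 10000) : ℝ) = 1 := by norm_num
      rw [h5, Real.rpow_one]
      calc s * x ^ (1 - 3 / 10000 : ℝ) ≤ s * (s * n) ^ 2 := by gcongr
        _ = s ^ 3 * n ^ 2 := by ring
        _ ≤ x := hm
    exact le_of_mul_le_mul_right h4 (by positivity)
  refine ⟨h1, ?_⟩
  have h2 : x ^ (49955 / 100000 : ℝ) ≤ n := by
    have h3 : x ^ (49955 / 100000 : ℝ) * x ^ (3 / 10000 : ℝ) ≤ n * x ^ (3 / 10000 : ℝ) := by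
      rw [← Real.rpow_add hx0]
      have h5 : (49955 / 100000 + 3 / 10000 : ℝ) = 1 / 2 - 3 / 20000 := by norm_num
      rw [h5]
      calc x ^ (1 / 2 - 3 / 20000 : ℝ) ≤ s * n := hY.le
        _ ≤ n * x ^ (3 / 10000 : ℝ) := by
          rw [mul_comm]
          gcongr
    exact le_of_mul_le_mul_right h3 (by positivity)
  calc s ^ 3 ≤ (x ^ (3 / 10000 : ℝ)) ^ 3 := by gcongr
    _ = x ^ (9 / 10000 : ℝ) := by
      rw [← Real.rpow_natCast, ← Real.rpow_mul hx0.le]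
      congr 1
      norm_num
    _ ≤ x ^ (49955 / 100000 * (19 / 10000) : ℝ) := Real.rpow_le_rpow_of_exponent_le hx (by norm_num)
    _ = (x ^ (49955 / 100000 : ℝ)) ^ (19 / 10000 : ℝ) := by rw [← Real.rpow_mul hx0.le]
    _ ≤ n ^ (19 / 10000 : ℝ) := Real.rpow_le_rpow (by positivity) h2 (by norm_num)

lemma goodM {s n : ℕ} (hs : 1 ≤ s) (hn : 1 ≤ n) (hk : (s : ℝ) ^ 3 ≤ (n : ℝ) ^ (19 / 10000 : ℝ))
    (h : Good (1 / 400) n) : GoodM (1 / 10000) (s ^ 3 * n ^ 2) := by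
  have hn1 : (1 : ℝ) ≤ n := by exact_mod_cast hn
  have hn0 : (0 : ℝ) < n := by linarith
  intro a b ha hb hab hmem hc
  have hc1 : (1 : ℝ) ≤ ((a + b : ℕ) : ℝ) := by exact_mod_cast (by omega : 1 ≤ a + b)
  have h1 := h (s ^ 3) a b (Nat.one_le_pow _ _ hs) (by
    push_cast
    exact hk.trans (Real.rpow_le_rpow_of_exponent_le hn1 (by norm_num))) ha hb hab hmem (by
    refine hc.trans ?_
    have h2 : ((s ^ 3 * n ^ 2 : ℕ) : ℝ) ≤ (n : ℝ) ^ (2 + 19 / 10000 : ℝ) := by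
      push_cast
      rw [Real.rpow_add hn0]
      have h3 : (n : ℝ) ^ (2 : ℝ) = (n : ℝ) ^ 2 := by exact_mod_cast Real.rpow_natCast (n : ℝ) 2
      rw [h3, mul_comm]
      gcongr
    calc ((s ^ 3 * n ^ 2 : ℕ) : ℝ) ^ (1 + 1 / 10000 : ℝ)
        ≤ ((n : ℝ) ^ (2 + 19 / 10000 : ℝ)) ^ (1 + 1 / 10000 : ℝ) :=
          Real.rpow_le_rpow (Nat.cast_nonneg _) h2 (by norm_num)
      _ = (n : ℝ) ^ ((2 + 19 / 10000) * (1 + 1 / 10000) : ℝ) := by rw [← Real.rpow_mul hn0.le]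
      _ ≤ (n : ℝ) ^ (2 + 1 / 400 : ℝ) := Real.rpow_le_rpow_of_exponent_le hn1 (by norm_num))
  exact lt_of_le_of_lt (Real.rpow_le_rpow_of_exponent_le hc1 (by norm_num)) h1

end Pw

open Classical in
theorem powerfulNumbers (h : Squares) : PowerfulNumbers := by
  obtain ⟨N₀, hN₀⟩ := h
  obtain ⟨X1, e1⟩ := ev (1 + 100000) (1 / 2 - 3 / 20000 + 1 / 100000) (1 / 2 - 1 / 10000) (by norm_num)
  obtain ⟨X2, e2⟩ := ev 1 (1 / 2 - 1 / 800 + 3 / 10000) (1 / 2 - 1 / 10000) (by norm_num)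
  refine ⟨max (max X1 X2) (max (N₀ ^ 2) 1), fun X hX => ?_⟩
  have g1 : X1 ≤ X := le_trans (le_trans (le_max_left _ _) (le_max_left _ _)) hX
  have g2 : X2 ≤ X := le_trans (le_trans (le_max_right _ _) (le_max_left _ _)) hX
  have g3 : N₀ ^ 2 ≤ X := le_trans (le_trans (le_max_left _ _) (le_max_right _ _)) hX
  have g4 : 1 ≤ X := le_trans (le_trans (le_max_right _ _) (le_max_right _ _)) hX
  have hx1 : (1 : ℝ) ≤ (X : ℝ) := by exact_mod_cast g4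
  have hx0 : (0 : ℝ) < (X : ℝ) := by linarith
  set Y : ℝ := (X : ℝ) ^ (1 / 2 - 3 / 20000 : ℝ) with hY
  have hY0 : 0 < Y := by positivity
  set N : ℕ := Nat.sqrt X with hN
  have hN0N : N₀ ≤ N := by
    rw [hN, Nat.le_sqrt, ← sq]
    exact g3
  set Bd : Finset ℕ := (Icc 1 N).filter (fun n : ℕ => ¬ Good (1 / 400) n) with hBd
  have hBdc := hN₀ N hN0N
  rw [← hBd] at hBdc
  set U1 : Finset ℕ := (Icc 1 X).biUnion (fun s => (Icc 1 ⌊Y / s⌋₊).image (fun n => s ^ 3 * n ^ 2)) with hU1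
  set U2 : Finset ℕ := (Icc 1 ⌊(X : ℝ) ^ (3 / 10000 : ℝ)⌋₊).biUnion (fun s => Bd.image (fun n => s ^ 3 * n ^ 2)) with hU2
  have hsub : (Icc 1 X).filter (fun m : ℕ => Powerful m ∧ ¬ GoodM (1 / 10000) m) ⊆ U1 ∪ U2 := by
    intro m hm
    rw [mem_filter, mem_Icc] at hm
    obtain ⟨⟨hm1, hmX⟩, hpw, hbad⟩ := hm
    obtain ⟨s, n, hs, hn, rfl⟩ := Pw.form hpw
    have hs' : (1 : ℝ) ≤ s := by exact_mod_cast hs
    have hn' : (1 : ℝ) ≤ n := by exact_mod_cast hn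
    have hsX : s ≤ X := by
      refine le_trans ?_ hmX
      calc s ≤ s ^ 3 := Nat.le_self_pow (by norm_num) s
        _ ≤ s ^ 3 * n ^ 2 := Nat.le_mul_of_pos_right _ (by positivity)
    rw [mem_union]
    by_cases hc : (s : ℝ) * n ≤ Y
    · left
      rw [hU1, mem_biUnion]
      refine ⟨s, mem_Icc.2 ⟨hs, hsX⟩, mem_image.2 ⟨n, mem_Icc.2 ⟨hn, ?_⟩, rfl⟩⟩
      apply Nat.le_floor
      rw [le_div_iff₀ (by linarith), mul_comm]
      exact hc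
    · right
      rw [not_le] at hc
      have hmR : (s : ℝ) ^ 3 * (n : ℝ) ^ 2 ≤ X := by exact_mod_cast hmX
      obtain ⟨h1, h2⟩ := Pw.ineqs hx1 hs' hn' hmR hc
      rw [hU2, mem_biUnion]
      refine ⟨s, mem_Icc.2 ⟨hs, Nat.le_floor h1⟩, mem_image.2 ⟨n, ?_, rfl⟩⟩
      rw [hBd, mem_filter, mem_Icc]
      refine ⟨⟨hn, ?_⟩, fun hg => hbad (Pw.goodM hs hn h2 hg)⟩
      rw [hN, Nat.le_sqrt, ← sq]
      refine le_trans ?_ hmX
      exact Nat.le_mul_of_pos_left _ (by positivity)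
  have hc1 : (U1.card : ℝ) ≤ (X : ℝ) ^ (1 / 2 - 1 / 10000 : ℝ) / 3 := by
    have h1 : (U1.card : ℝ) ≤ ∑ s ∈ Icc 1 X, Y / s := by
      have h2 : U1.card ≤ ∑ s ∈ Icc 1 X, ⌊Y / s⌋₊ := by
        refine card_biUnion_le.trans (Finset.sum_le_sum fun s _ => card_image_le.trans ?_)
        rw [Nat.card_Icc]
        omega
      calc (U1.card : ℝ) ≤ ((∑ s ∈ Icc 1 X, ⌊Y / s⌋₊ : ℕ) : ℝ) := by exact_mod_cast h2
        _ = ∑ s ∈ Icc 1 X, ((⌊Y / s⌋₊ : ℕ) : ℝ) := by push_cast; rfl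
        _ ≤ ∑ s ∈ Icc 1 X, Y / s := Finset.sum_le_sum fun s _ => Nat.floor_le (by positivity)
    have h3 : ∑ s ∈ Icc 1 X, Y / s = Y * (harmonic X : ℝ) := by
      rw [harmonic_eq_sum_Icc, Rat.cast_sum, Finset.mul_sum]
      refine Finset.sum_congr rfl fun s _ => ?_
      push_cast
      rw [div_eq_mul_inv]
    have h4 : (harmonic X : ℝ) ≤ 1 + Real.log X := harmonic_le_one_add_log X
    have h5 : Real.log X ≤ (X : ℝ) ^ (1 / 100000 : ℝ) / (1 / 100000) := Real.log_le_rpow_div hx0.le (by norm_num)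
    have h6 : (1 : ℝ) ≤ (X : ℝ) ^ (1 / 100000 : ℝ) := Real.one_le_rpow hx1 (by norm_num)
    have h7 : (harmonic X : ℝ) ≤ (1 + 100000) * (X : ℝ) ^ (1 / 100000 : ℝ) := by
      have : (X : ℝ) ^ (1 / 100000 : ℝ) / (1 / 100000) = 100000 * (X : ℝ) ^ (1 / 100000 : ℝ) := by ring
      rw [this] at h5
      linarith
    calc (U1.card : ℝ) ≤ Y * (harmonic X : ℝ) := by rw [← h3]; exact h1
      _ ≤ Y * ((1 + 100000) * (X : ℝ) ^ (1 / 100000 : ℝ)) := by gcongr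
      _ = (1 + 100000) * (X : ℝ) ^ (1 / 2 - 3 / 20000 + 1 / 100000 : ℝ) := by
        rw [Real.rpow_add hx0, hY]
        ring
      _ ≤ _ := e1 X g1
  have hc2 : (U2.card : ℝ) ≤ (X : ℝ) ^ (1 / 2 - 1 / 10000 : ℝ) / 3 := by
    have h1 : U2.card ≤ ⌊(X : ℝ) ^ (3 / 10000 : ℝ)⌋₊ * Bd.card := by
      refine card_biUnion_le.trans ((Finset.sum_le_sum fun s _ => card_image_le).trans ?_)
      rw [Finset.sum_const, Nat.card_Icc, smul_eq_mul, Nat.add_sub_cancel]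
    have h2 : (N : ℝ) ^ (1 - 1 / 400 : ℝ) ≤ (X : ℝ) ^ (1 / 2 - 1 / 800 : ℝ) := by
      have h3 : (N : ℝ) ≤ (X : ℝ) ^ (1 / 2 : ℝ) := by
        rw [← Real.sqrt_eq_rpow]
        apply Real.le_sqrt_of_sq_le
        exact_mod_cast (by rw [sq]; exact Nat.sqrt_le X : (Nat.sqrt X) ^ 2 ≤ X)
      calc (N : ℝ) ^ (1 - 1 / 400 : ℝ) ≤ ((X : ℝ) ^ (1 / 2 : ℝ)) ^ (1 - 1 / 400 : ℝ) :=
            Real.rpow_le_rpow (Nat.cast_nonneg _) h3 (by norm_num)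
        _ = (X : ℝ) ^ (1 / 2 - 1 / 800 : ℝ) := by
          rw [← Real.rpow_mul hx0.le]
          congr 1
          norm_num
    calc (U2.card : ℝ) ≤ ((⌊(X : ℝ) ^ (3 / 10000 : ℝ)⌋₊ * Bd.card : ℕ) : ℝ) := by exact_mod_cast h1
      _ = (⌊(X : ℝ) ^ (3 / 10000 : ℝ)⌋₊ : ℝ) * (Bd.card : ℝ) := by push_cast; rfl
      _ ≤ (X : ℝ) ^ (3 / 10000 : ℝ) * (X : ℝ) ^ (1 / 2 - 1 / 800 : ℝ) := by
        apply mul_le_mul (Nat.floor_le (by positivity)) (hBdc.trans h2) (by positivity) (by positivity)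
      _ = 1 * (X : ℝ) ^ (1 / 2 - 1 / 800 + 3 / 10000 : ℝ) := by
        rw [one_mul, Real.rpow_add hx0]
        ring
      _ ≤ _ := e2 X g2
  have hcard : ((((Icc 1 X).filter (fun m : ℕ => Powerful m ∧ ¬ GoodM (1 / 10000) m)).card : ℕ) : ℝ) ≤
      (U1.card : ℝ) + (U2.card : ℝ) := by
    exact_mod_cast (Finset.card_le_card hsub).trans (card_union_le _ _)
  have h0 : (0 : ℝ) ≤ (X : ℝ) ^ (1 / 2 - 1 / 10000 : ℝ) := by positivity
  linarith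

end Pool.Agent.NH16.AS
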