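import Mathlib
import Pool.Agent.H785R2.ABC.Defs

/-!
# Almost all squares: statements of the modules

For all but `N ^ (1 - 1/400)` of the `n ≤ N` every abc-triple with a member `k n ^ 2`, `k ≤ n ^ (1/400)`, and
`c ≤ n ^ (2 + 1/400)` has `rad (abc) > c ^ (1 + 1/400)`.
-/

set_option autoImplicit false

namespace Pool.Agent.NH16.AS

open Finset Pool.Agent.H785R2.ABC

/-- J1: at most `(p + 3) / 2` residues `y` make `A y ^ i + e` a square, when `p = 3` mod `4`,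
`gcd (i, p - 1) ∣ 2` and `A, e` are not zero modulo `p`. -/
def Classes : Prop := ∀ (p : ℕ) [Fact p.Prime], p % 4 = 3 → ∀ i : ℕ, 1 ≤ i → Nat.gcd i (p - 1) ∣ 2 →
  ∀ A e : ZMod p, A ≠ 0 → e ≠ 0 →
    2 * {y : ZMod p | IsSquare (A * y ^ i + e)}.ncard ≤ p + 3

/-- J2: large sieve for sets with at most `(l + 3) / 2` residues modulo the primes `l` of `P`. -/
def Sieve : Prop := ∀ (N F : ℕ) (A P : Finset ℕ), A ⊆ Icc 1 N → (∀ l ∈ P, l.Prime ∧ 7 ≤ l ∧ l ≤ F) →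
  (∀ l ∈ P, 2 * ((A.image (fun n => n % l)).card) ≤ l + 3) →
  (A.card : ℝ) * P.card ≤ 15 * (N + (F : ℝ) ^ 2)

/-- J3: many primes `p ≤ Q`, `p = -1` mod `M`, not dividing `m`. -/
def PrimesM : Prop := ∀ M : ℕ, 1 ≤ M → ∀ ε : ℝ, 0 < ε → ∃ c : ℝ, 0 < c ∧ ∃ Q₀ : ℕ, ∀ Q : ℕ, Q₀ ≤ Q →
  ∀ m : ℕ, 1 ≤ m →
    c * (Q : ℝ) ^ (1 - ε) - Real.log m / Real.log 2 ≤
      (((Icc 1 Q).filter (fun p => p.Prime ∧ 7 ≤ p ∧ M ∣ p + 1 ∧ ¬ p ∣ m)).card : ℝ)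

/-- J4: the number of `y ≤ Y` with `A y ^ i + e` a square is at most about `√Y`. -/
def SqCount : Prop := ∀ (I : ℕ) (B ε : ℝ), 0 < B → 0 < ε → ∃ D : ℝ, 0 < D ∧ ∀ N : ℕ, 1 ≤ N →
  ∀ i : ℕ, 1 ≤ i → i ≤ I → ∀ A e : ℤ, A ≠ 0 → e ≠ 0 → |(A : ℝ)| ≤ (N : ℝ) ^ B → |(e : ℝ)| ≤ (N : ℝ) ^ B →
  ∀ Y : ℕ, 1 ≤ Y → (Y : ℝ) ≤ (N : ℝ) ^ B →
    (((Icc 1 Y).filter (fun y : ℕ => IsSquare (A * (y : ℤ) ^ i + e))).card : ℝ) ≤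
      D * (N : ℝ) ^ ε * Real.sqrt Y

/-- J5: `n` has a large factor `z ^ (i + 1)`, `i < K`, `z` coprime to the cofactor. -/
def Split : Prop := ∀ K n : ℕ, 1 ≤ K → 1 ≤ n → ∃ i : ℕ, i < K ∧ ∃ A z : ℕ, 1 ≤ A ∧ 1 ≤ z ∧
  n = A * z ^ (i + 1) ∧ rad A * z = rad n ∧
    (rad n : ℝ) ≤ (n : ℝ) ^ (1 / ((K : ℝ) + 1)) * (z : ℝ) ^ (K : ℝ)

/-- J6: pairs `(x, y)` with `rad x * rad y ≤ R`. -/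
def Pairs : Prop := ∀ ε : ℝ, 0 < ε → ∃ D : ℝ, 0 < D ∧ ∀ X : ℕ, 1 ≤ X → ∀ R : ℝ, 0 ≤ R →
  ((((Icc 1 X) ×ˢ (Icc 1 X)).filter (fun t : ℕ × ℕ => (rad t.1 : ℝ) * (rad t.2 : ℝ) ≤ R)).card : ℝ) ≤
    D * (X : ℝ) ^ ε * R

open Classical in
/-- J7: for fixed `K`, `i`: the numbers `n` with `k n ^ 2 = s A z ^ (i + 1) + t x`, `rad x * rad A * z ≤ W`,
`z > V`. -/
def CountI : Prop := ∀ (I : ℕ) (ε : ℝ), 0 < ε → ∃ D : ℝ, 0 < D ∧ ∀ N : ℕ, 1 ≤ N → ∀ k : ℕ, 1 ≤ k → k ≤ N →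
  ∀ s t : ℤ, (s = 1 ∨ s = -1) → (t = 1 ∨ t = -1) → ∀ i : ℕ, 1 ≤ i → i ≤ I → ∀ V W : ℝ, 1 ≤ V → 0 ≤ W →
  (((Icc 1 N).filter (fun n : ℕ => ∃ x A z : ℕ, 1 ≤ x ∧ x ≤ N ^ 3 ∧ 1 ≤ A ∧ A ≤ N ^ 3 ∧ V < z ∧ z ≤ N ^ 3 ∧
      (rad x : ℝ) * rad A * z ≤ W ∧ (k : ℤ) * (n : ℤ) ^ 2 = s * (A * (z : ℤ) ^ i) + t * x)).card : ℝ) ≤
    D * (N : ℝ) ^ ε * (W / Real.sqrt V)

open Classical in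
/-- J8: for fixed `k`, `s`, `t`. -/
def Count : Prop := ∀ (K : ℕ) (τ θ H ε : ℝ), 1 ≤ K → 0 < ε → 0 < τ → 0 < H → H ≤ 3 → H / ((K : ℝ) + 1) ≤ τ →
  ∃ D : ℝ, 0 < D ∧ ∀ N : ℕ, 1 ≤ N → ∀ k : ℕ, 1 ≤ k → k ≤ N →
  ∀ s t : ℤ, (s = 1 ∨ s = -1) → (t = 1 ∨ t = -1) →
  (((Icc 1 N).filter (fun n : ℕ => ∃ x y : ℕ, 1 ≤ x ∧ (x : ℝ) ≤ (N : ℝ) ^ H ∧ 1 ≤ y ∧ (y : ℝ) ≤ (N : ℝ) ^ H ∧
      rad x ≤ rad y ∧ (rad x : ℝ) * rad y ≤ (N : ℝ) ^ (1 + θ) ∧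
      (k : ℤ) * (n : ℤ) ^ 2 = s * y + t * x)).card : ℝ) ≤
    D * (N : ℝ) ^ ε * ((N : ℝ) ^ (2 * τ) + (N : ℝ) ^ (1 + θ - (τ - H / ((K : ℝ) + 1)) / (2 * K)))

end Pool.Agent.NH16.AS
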